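import Pool.Agent.Helper70.EH.Goals
import Pool.Agent.Helper70.EQ.FI

/-!
# EH-FI: the final computation
-/

open MeasureTheory Set

namespace Pool.Agent.Helper70.EH.FI

open Pool.Agent.Helper70.EQ Pool.Agent.Helper70.KN Pool.Agent.Helper70.EQ.FI

theorem t (hPB : Pool.Agent.Helper70.EH.G_PB) (hMB : Pool.Agent.Helper70.EH.G_MB) (hXX : S_XX) (hPO : S_PO) :
    Pool.Agent.Helper70.EH.G_FI := by
  intro n r κ V c hn hr hκ hV hc hnum
  have hc0 : 0 < c := hV.2.1
  have hn' : (3 : ℝ) ≤ n := by exact_mod_cast hn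
  have hr' : (1 : ℝ) ≤ r := by exact_mod_cast hr
  have hc1 : (1 : ℝ) ≤ c := by linarith
  have hP := hPB (n + r) r κ V c hκ (by omega) hV hc1
  have hM := hMB (n + r) r κ V c hκ hr (by omega) hV (by push_cast; exact hc)
  have hT := T1_pos hPO (by omega) V c hV
  have hX := hXX (n + r) V c hV 0 (by omega)
  have hB0 : (0 : ℝ) < ((n + r - 1).choose n : ℝ) := by
    exact_mod_cast Nat.choose_pos (by omega)
  have hs0 : 0 ≤ (r.factorial : ℝ) * (Nat.stirlingSecond (n + r) r : ℝ) := by positivity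
  obtain ⟨hE, hnum⟩ := hnum
  set C : ℝ := ((n + r - 1).choose n : ℝ)
  set s : ℝ := (r.factorial : ℝ) * (Nat.stirlingSecond (n + r) r : ℝ)
  set w0 := wt κ (n + r)
  set w1 := wt κ (n + r - 1)
  set a0 := ak κ (n + r)
  set a1 := ak κ (n + r - 1)
  set b1 := bk κ (n + r - 1)
  set b2 := bk κ (n + r - 2)
  set p := genusH κ V
  set m := milnorH κ V
  set T0 := T V 0
  set T1 := T V 1
  push_cast at hP
  have hX' : c * T1 ≤ ((n : ℝ) + r) * T0 := by
    have e : ((0 : ℕ) : ℝ) = 0 := Nat.cast_zero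
    rw [e] at hX
    push_cast at hX
    linarith
  have hNp : (0 : ℝ) < (n : ℝ) + r := by linarith
  have h1 : C * (((n + r).factorial : ℝ) * p) ≤ C * (a0 * T0 - ((n + r) * a1 - b1) / 2 * T1 +
      ((n : ℝ) + r - 1) ^ 3 / (8 * c) * b2 * T1) := mul_le_mul_of_nonneg_left hP hB0.le
  have h2 : s * (w0 * T0 - w1 * T1) ≤ s * m := mul_le_mul_of_nonneg_left hM hs0
  have hT0 : c / ((n : ℝ) + r) * T1 ≤ T0 := by
    rw [div_mul_eq_mul_div, div_le_iff₀ hNp]
    linarith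
  have h4 : (s * w0 - C * a0) * (c / ((n : ℝ) + r) * T1) ≤ (s * w0 - C * a0) * T0 :=
    mul_le_mul_of_nonneg_left hT0 (by linarith)
  have hkey : 0 < T1 * ((s * w0 - C * a0) * (c / ((n : ℝ) + r)) + C * ((((n : ℝ) + r) * a1 - b1) / 2) -
      C * (((n : ℝ) + r - 1) ^ 3 / (8 * c) * b2) - s * w1) := by
    refine mul_pos hT ?_
    have e : (s * w0 - C * a0) * (c / ((n : ℝ) + r)) + C * ((((n : ℝ) + r) * a1 - b1) / 2) -
      C * (((n : ℝ) + r - 1) ^ 3 / (8 * c) * b2) - s * w1 =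
        (4 * c * (2 * c * (s * w0 - C * a0) + ((n : ℝ) + r) * C * (((n : ℝ) + r) * a1 - b1) -
        2 * ((n : ℝ) + r) * s * w1) - ((n : ℝ) + r) * ((n : ℝ) + r - 1) ^ 3 * C * b2) /
          (8 * c * ((n : ℝ) + r)) := by
      field_simp
      ring
    rw [e]
    exact div_pos (by linarith) (by positivity)
  calc C * ((n + r).factorial : ℝ) * p = C * (((n + r).factorial : ℝ) * p) := by ring
    _ ≤ C * (a0 * T0 - ((n + r) * a1 - b1) / 2 * T1 + ((n : ℝ) + r - 1) ^ 3 / (8 * c) * b2 * T1) := h1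
    _ < s * (w0 * T0 - w1 * T1) := by
      have e : s * (w0 * T0 - w1 * T1) - C * (a0 * T0 - ((n + r) * a1 - b1) / 2 * T1 +
          ((n : ℝ) + r - 1) ^ 3 / (8 * c) * b2 * T1) =
          (s * w0 - C * a0) * T0 + T1 * (C * ((((n : ℝ) + r) * a1 - b1) / 2) -
            C * (((n : ℝ) + r - 1) ^ 3 / (8 * c) * b2) - s * w1) := by ring
      have e2 : T1 * ((s * w0 - C * a0) * (c / ((n : ℝ) + r)) + C * ((((n : ℝ) + r) * a1 - b1) / 2) -
          C * (((n : ℝ) + r - 1) ^ 3 / (8 * c) * b2) - s * w1) =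
          (s * w0 - C * a0) * (c / ((n : ℝ) + r) * T1) + T1 * (C * ((((n : ℝ) + r) * a1 - b1) / 2) -
            C * (((n : ℝ) + r - 1) ^ 3 / (8 * c) * b2) - s * w1) := by ring
      linarith
    _ ≤ s * m := h2

end Pool.Agent.Helper70.EH.FI
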