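import Pool.Agent.Helper70.EH.Goals
import Pool.Agent.Helper70.EQ.MB0

/-!
# EH-MB: the lower bound of the Milnor number
-/

open MeasureTheory Set

namespace Pool.Agent.Helper70.EH.MB

open Pool.Agent.Helper70.EQ Pool.Agent.Helper70.KN Pool.Agent.Helper70.EQ.MB0

theorem t (hMT : Pool.Agent.Helper70.EH.G_MT) (hWT : Pool.Agent.Helper70.EH.G_WT) (hXX : S_XX) (hAL : S_AL) :
    Pool.Agent.Helper70.EH.G_MB := by
  intro N r κ V c hκ hr hrN hT hc
  obtain ⟨hw1, hw0, hwr⟩ := hWT r κ hr hκ
  have hc0 : 0 < c := hT.2.1
  have hX0 : ∀ k, 0 ≤ T V k := fun k => by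
    unfold T X
    refine mul_nonneg (by positivity) (Finset.sum_nonneg fun J _ => ?_)
    exact ENNReal.toReal_nonneg
  have hdec : ∀ k, k < N → T V (k + 1) ≤ T V k := by
    intro k hk
    have h1 := hXX N V c hT k hk
    have hkN : (k : ℝ) < N := by exact_mod_cast hk
    have hk0 : (0 : ℝ) ≤ k := Nat.cast_nonneg k
    have hle : (N : ℝ) - k ≤ c := by linarith
    have h2 : ((N : ℝ) - k) * T V k ≤ c * T V k := mul_le_mul_of_nonneg_right hle (hX0 k)
    have h3 : c * T V (k + 1) ≤ ((k : ℝ) + 1) * c * T V (k + 1) := by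
      have : 0 ≤ (k : ℝ) * (c * T V (k + 1)) := mul_nonneg (by positivity) (mul_nonneg hc0.le (hX0 _))
      linarith
    exact le_of_mul_le_mul_left (by linarith) hc0
  rw [hMT N r κ V hr (by omega)]
  set n := N - r with hn
  have hn3 : 3 ≤ n := by omega
  -- the sequence
  set b : ℕ → ℝ := fun k => if k ≤ n then wt κ (N - k) * T V k else if k = n + 1 then 1 else 0 with hb
  have hb0 : ∀ k, 0 ≤ b k := by
    intro k
    simp only [hb]
    split_ifs
    · exact mul_nonneg (hw0 _) (hX0 k)
    · exact zero_le_one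
    · exact le_rfl
  have hlast : ∀ k, k ≤ N → 1 ≤ T V k := by
    intro k hk
    have : ∀ j, j ≤ N - k → 1 ≤ T V (N - j) := by
      intro j
      induction j with
      | zero => intro _; rw [Nat.sub_zero, T_last hT]
      | succ j ih =>
        intro hj
        have h1 := ih (by omega)
        have h2 := hdec (N - (j + 1)) (by omega)
        rw [show N - (j + 1) + 1 = N - j by omega] at h2
        linarith
    have h := this (N - k) le_rfl
    rwa [Nat.sub_sub_self hk] at h
  have hbd : ∀ k, b (k + 1) ≤ b k := by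
    intro k
    simp only [hb]
    by_cases h1 : k + 1 ≤ n
    · rw [if_pos h1, if_pos (by omega)]
      refine mul_le_mul ?_ (hdec k (by omega)) (hX0 _) (hw0 _)
      have h5 := hw1 (N - (k + 1))
      rwa [show N - (k + 1) + 1 = N - k by omega] at h5
    · rw [if_neg h1]
      by_cases h2 : k + 1 = n + 1
      · rw [if_pos h2, if_pos (by omega)]
        have h3 : k = n := by omega
        have h4 : N - k = r := by omega
        rw [h4]
        have h6 := hlast k (by omega)
        nlinarith
      · rw [if_neg h2]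
        have := hb0 k
        simpa [hb] using this
  have key := hAL (n + 1) b hb0 (fun k _ => hbd k) (by omega)
  have hsum : ∑ k ∈ Finset.range (n + 1 + 1), (-1) ^ k * b k =
      ∑ k ∈ Finset.range (n + 1), (-1) ^ k * wt κ (N - k) * T V k - (-1) ^ n := by
    rw [Finset.sum_range_succ]
    have e1 : b (n + 1) = 1 := by simp [hb]
    rw [e1, pow_succ]
    have e2 : ∑ k ∈ Finset.range (n + 1), (-1) ^ k * b k =
        ∑ k ∈ Finset.range (n + 1), (-1) ^ k * wt κ (N - k) * T V k := by
      refine Finset.sum_congr rfl fun k hk => ?_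
      have : k ≤ n := by
        have := Finset.mem_range.1 hk
        omega
      simp only [hb, if_pos this]
      ring
    rw [e2]
    ring
  rw [hsum] at key
  have e0 : b 0 = wt κ N * T V 0 := by simp [hb]
  have e1 : b 1 = wt κ (N - 1) * T V 1 := by
    simp only [hb]
    rw [if_pos (by omega)]
  have h23 := hbd 2
  rw [e0, e1] at key
  linarith

end Pool.Agent.Helper70.EH.MB
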