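import Pool.Agent.Helper69.EQ.N2

/-!
# Project EH (MP_20ee5e_ag): the numerical condition for `r ≥ 3`, `4 r (r-1)^(N-2) ≤ r^(N-2)`

As Helper69/EQ/N2.lean (there `n ≥ r²`).
-/

set_option autoImplicit false

namespace Pool.Agent.Helper70.EH.N3

open Pool.Agent.Helper70.EQ Pool.Agent.Helper69.EQ.N2

/-- The condition. -/
def Cd (n r : ℕ) : Prop := 4 * r * (r - 1) ^ (n + r - 2) ≤ r ^ (n + r - 2)

theorem small' (r M K : ℕ) (hr : 3 ≤ r) (h : 4 * r * (r - 1) ^ M ≤ r ^ M) (hK : M ≤ K) :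
    (r : ℝ) * (((r : ℝ) - 1) / r) ^ K ≤ 1 / 4 := by
  have hr3 : (3 : ℝ) ≤ r := by exact_mod_cast hr
  have hr0 : (0 : ℝ) < r := by linarith
  have hq0 : 0 ≤ ((r : ℝ) - 1) / r := div_nonneg (by linarith) hr0.le
  have hq1 : ((r : ℝ) - 1) / r ≤ 1 := by
    rw [div_le_one hr0]; linarith
  have h1 : (4 : ℝ) * r * ((r : ℝ) - 1) ^ M ≤ (r : ℝ) ^ M := by
    have e : ((r - 1 : ℕ) : ℝ) = (r : ℝ) - 1 := by
      rw [Nat.cast_sub (by omega)]; simp
    rw [← e]
    exact_mod_cast h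
  have h2 : (r : ℝ) * (((r : ℝ) - 1) / r) ^ M ≤ 1 / 4 := by
    rw [div_pow, ← mul_div_assoc, div_le_iff₀ (by positivity)]
    linarith
  refine le_trans (mul_le_mul_of_nonneg_left ?_ hr0.le) h2
  exact pow_le_pow_of_le_one hq0 hq1 hK

theorem tj_le'' (r M : ℕ) (hr : 3 ≤ r) (hs : (r : ℝ) * (((r : ℝ) - 1) / r) ^ M ≤ 1 / 4) :
    tj r M ≤ 4 / 3 * (r : ℝ) ^ M := by
  have hr3 : (3 : ℝ) ≤ r := by exact_mod_cast hr
  have hr0 : (0 : ℝ) < r := by linarith
  have hq0 : 0 ≤ ((r : ℝ) - 1) / r := div_nonneg (by linarith) hr0.le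
  refine (tj_le r M (by omega)).trans ?_
  rw [mul_comm]
  exact mul_le_mul_of_nonneg_right (pow_le_four_thirds r _ (pow_nonneg hq0 M) hs) (by positivity)

theorem sj_ge' (hSR : G_SR) (r M : ℕ) (hr : 3 ≤ r) (hs : (r : ℝ) * (((r : ℝ) - 1) / r) ^ M ≤ 1 / 4) :
    3 / 4 * (r : ℝ) ^ M ≤ sj r M := by
  have hr3 : (3 : ℝ) ≤ r := by exact_mod_cast hr
  have hr0 : (0 : ℝ) < r := by linarith
  refine le_trans ?_ ((hSR r M).2.2 (by omega))
  have e : (r : ℝ) * ((r : ℝ) - 1) ^ M = (r : ℝ) ^ M * ((r : ℝ) * (((r : ℝ) - 1) / r) ^ M) := by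
    rw [div_pow]
    field_simp
  rw [e]
  have hp : (0 : ℝ) < (r : ℝ) ^ M := by positivity
  nlinarith

/-- The quadratic inequality. -/
theorem quad (n r : ℕ) (hr : 3 ≤ r) (hn : 3 ≤ n) (h : Cd n r) :
    0 ≤ ((n : ℝ) + r - 1) * (23 / 4 * ((n : ℝ) + r) - 11) - 18 * n * r := by
  by_cases hN : 13 ≤ n + r
  · have h1 : (13 : ℝ) ≤ (n : ℝ) + r := by exact_mod_cast hN
    nlinarith [sq_nonneg ((n : ℝ) - r)]
  · push Not at hN
    unfold Cd at h
    have h9 : r ≤ 9 := by omega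
    have h9' : n ≤ 9 := by omega
    interval_cases r <;> interval_cases n <;> first | omega | (exfalso; revert h; norm_num; done) | norm_num

theorem t (hSR : G_SR) (n r : ℕ) (c : ℝ) (hr : 3 ≤ r) (hn : 3 ≤ n) (h : Cd n r)
    (hc : ((n : ℝ) + r) ^ 2 ≤ c) : Num n r c := by
  have hq := quad n r hr hn h
  unfold Pool.Agent.Helper70.EQ.Num
  unfold Cd at h
  obtain ⟨M, hM⟩ : ∃ M, n + r = M + 2 := ⟨n + r - 2, by omega⟩
  have e1 : n + r - 1 = M + 1 := by omega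
  have e2 : n + r - 2 = M := by omega
  rw [e2] at h
  rw [e1, e2, hM]
  have hr3 : (3 : ℝ) ≤ r := by exact_mod_cast hr
  have hn3 : (3 : ℝ) ≤ n := by exact_mod_cast hn
  have hP : (0 : ℝ) < (r : ℝ) ^ M := by positivity
  have t0 := tj_le'' r M hr (small' r M M hr h le_rfl)
  have t1 := tj_le'' r (M + 1) hr (small' r M (M + 1) hr h (by omega))
  have s1 := sj_ge' hSR r (M + 1) hr (small' r M (M + 1) hr h (by omega))
  have s2 := (hSR r (M + 2)).2.1
  set R : ℝ := (r : ℝ) with hR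
  set P : ℝ := R ^ M with hPdef
  have p1 : R ^ (M + 1) = R * P := by rw [pow_succ]; ring
  have p2 : R ^ (M + 2) = R ^ 2 * P := by rw [pow_add]; ring
  rw [p1] at t1 s1
  rw [p2] at s2
  set x : ℝ := (n : ℝ) with hx
  set g : ℝ := (x + R - 1) * (3 / 4 * (x + R) - 4 / 3) - 2 * x * R with hg
  have hA : (0 : ℝ) < x + R - 1 := by linarith
  have hg9 : (x + R - 1) ^ 2 ≤ 9 * g := by
    rw [hg]
    nlinarith
  have hgpos : 0 < g := by nlinarith [pow_pos hA 2]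
  have hbr : R * P * g ≤ (x + R - 1) * ((x + R) * sj r (M + 1) - tj r (M + 1)) -
      2 * x * sj r (M + 2) := by
    have h1 : (x + R) * (3 / 4 * (R * P)) - 4 / 3 * (R * P) ≤
        (x + R) * sj r (M + 1) - tj r (M + 1) := by
      have := mul_le_mul_of_nonneg_left s1 (by linarith : (0 : ℝ) ≤ x + R)
      linarith
    have h2 := mul_le_mul_of_nonneg_left h1 hA.le
    have h3 : 2 * x * sj r (M + 2) ≤ 2 * x * (R ^ 2 * P) :=
      mul_le_mul_of_nonneg_left s2 (by linarith)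
    have h4 : R * P * g = (x + R - 1) * ((x + R) * (3 / 4 * (R * P)) - 4 / 3 * (R * P)) -
        2 * x * (R ^ 2 * P) := by
      rw [hg]; ring
    rw [h4]
    linarith
  have hRPg : 0 < R * P * g := by positivity
  have hc0 : (0 : ℝ) ≤ c := le_trans (by positivity) hc
  calc (x + R - 1) ^ 4 * tj r M ≤ (x + R - 1) ^ 4 * (4 / 3 * P) :=
        mul_le_mul_of_nonneg_left t0 (by positivity)
    _ = 4 / 3 * P * ((x + R - 1) ^ 2 * (x + R - 1) ^ 2) := by ring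
    _ < 4 / 3 * P * ((x + R) ^ 2 * (9 * g)) := by
        apply mul_lt_mul_of_pos_left _ (by positivity)
        have h6 : (x + R - 1) ^ 2 < (x + R) ^ 2 := by nlinarith
        have h7 : 0 < (x + R - 1) ^ 2 := by positivity
        calc (x + R - 1) ^ 2 * (x + R - 1) ^ 2 < (x + R) ^ 2 * (x + R - 1) ^ 2 :=
              mul_lt_mul_of_pos_right h6 h7
          _ ≤ (x + R) ^ 2 * (9 * g) := mul_le_mul_of_nonneg_left hg9 (by positivity)
    _ ≤ 4 * (x + R) ^ 2 * (R * P * g) := by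
        have h5 : 0 ≤ P * ((x + R) ^ 2 * g) := by positivity
        nlinarith [mul_nonneg h5 (sub_nonneg.2 hr3)]
    _ ≤ 4 * c * (R * P * g) := by
        apply mul_le_mul_of_nonneg_right _ hRPg.le
        linarith
    _ ≤ 4 * c * ((x + R - 1) * ((x + R) * sj r (M + 1) - tj r (M + 1)) -
          2 * x * sj r (M + 2)) :=
        mul_le_mul_of_nonneg_left hbr (by linarith)

/-- The condition follows from `r² ≤ n`. -/
theorem Cd_of_sq (n r : ℕ) (hr : 3 ≤ r) (hn : r ^ 2 ≤ n) : Cd n r := by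
  unfold Cd
  have hs := small r (n + r - 2) hr (by omega)
  have hr3 : (3 : ℝ) ≤ r := by exact_mod_cast hr
  have hr0 : (0 : ℝ) < r := by linarith
  rw [div_pow, ← mul_div_assoc, div_le_iff₀ (by positivity)] at hs
  have e : ((r - 1 : ℕ) : ℝ) = (r : ℝ) - 1 := by
    rw [Nat.cast_sub (by omega)]; simp
  have : (4 : ℝ) * r * ((r - 1 : ℕ) : ℝ) ^ (n + r - 2) ≤ (r : ℝ) ^ (n + r - 2) := by
    rw [e]; linarith
  exact_mod_cast this

end Pool.Agent.Helper70.EH.N3
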