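import Pool.Agent.Helper70.EH.Goals3
import Pool.Agent.Helper70.EH.N3

/-!
# Project EH (MP_20ee5e_ag), N4: any `k_1, ..., k_r`, large dimension, coordinates `≥ N^2`
-/

set_option autoImplicit false

namespace Pool.Agent.Helper70.EH.N4

open Pool.Agent.Helper70.EH Pool.Agent.Helper70.EQ

/-- The condition on the `k_i` implies the one for equal `k_i`. -/
theorem cd_of (n r : ℕ) (k : Fin r → ℕ) (hr : 3 ≤ r) (hk : ∀ i, 1 ≤ k i)
    (h : 4 * ∑ i, ((∑ j, (k j : ℝ)) - k i) ^ (n + r - 2) ≤ (∑ j, (k j : ℝ)) ^ (n + r - 2)) :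
    Pool.Agent.Helper70.EH.N3.Cd n r := by
  unfold Pool.Agent.Helper70.EH.N3.Cd
  obtain ⟨M, hM⟩ : ∃ M, n + r - 2 = M := ⟨_, rfl⟩
  rw [hM] at h ⊢
  set K : ℝ := ∑ j, (k j : ℝ) with hK
  have hkr : ∀ i, (1 : ℝ) ≤ k i := fun i => by exact_mod_cast hk i
  have hr3 : (3 : ℝ) ≤ r := by exact_mod_cast hr
  have hKr : (r : ℝ) ≤ K := by
    have : ∑ _j : Fin r, (1 : ℝ) ≤ ∑ j, (k j : ℝ) := Finset.sum_le_sum fun j _ => hkr j
    simpa using this
  have hKi : ∀ i, 0 ≤ K - k i := fun i => by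
    have : (k i : ℝ) ≤ K := by
      rw [hK]
      exact Finset.single_le_sum (f := fun j => (k j : ℝ)) (fun j _ => by positivity) (Finset.mem_univ i)
    linarith
  have hK0 : 0 < K := by linarith
  have hr0 : (0 : ℝ) < r := by linarith
  have hJ := Real.pow_arith_mean_le_arith_mean_pow Finset.univ (fun _ : Fin r => 1 / (r : ℝ)) (fun i => K - k i)
    (fun i _ => by positivity) (by simp [hr0.ne']) (fun i _ => hKi i) M
  have e1 : ∑ i : Fin r, 1 / (r : ℝ) * (K - k i) = (r - 1) * K / r := by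
    rw [← Finset.mul_sum, Finset.sum_sub_distrib, Finset.sum_const, Finset.card_univ, Fintype.card_fin, ← hK]
    simp only [nsmul_eq_mul]
    ring
  have e2 : ∑ i : Fin r, 1 / (r : ℝ) * (K - k i) ^ M = 1 / r * ∑ i, (K - k i) ^ M := by
    rw [← Finset.mul_sum]
  rw [e1, e2] at hJ
  have h2 : ((r - 1) * K / r) ^ M ≤ 1 / r * (K ^ M / 4) := by
    refine hJ.trans ?_
    apply mul_le_mul_of_nonneg_left _ (by positivity)
    linarith
  have hrM : (0 : ℝ) < (r : ℝ) ^ M := by positivity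
  have hKM : (0 : ℝ) < K ^ M := by positivity
  have h3 : ((r - 1) * K / r) ^ M = ((r : ℝ) - 1) ^ M * K ^ M / r ^ M := by
    rw [div_pow, mul_pow]
  rw [h3, div_le_iff₀ hrM] at h2
  have h4 : ((r : ℝ) - 1) ^ M * (4 * r) * K ^ M ≤ r ^ M * K ^ M := by
    have h5 := mul_le_mul_of_nonneg_left h2 (by positivity : (0 : ℝ) ≤ 4 * r)
    have e : 4 * (r : ℝ) * (1 / r * (K ^ M / 4) * r ^ M) = r ^ M * K ^ M := by
      field_simp
    rw [e] at h5
    linarith
  have h6 : ((r : ℝ) - 1) ^ M * (4 * r) ≤ r ^ M := le_of_mul_le_mul_right h4 hKM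
  have e : ((r - 1 : ℕ) : ℝ) = (r : ℝ) - 1 := by
    rw [Nat.cast_sub (by omega)]; simp
  have : (4 : ℝ) * r * ((r - 1 : ℕ) : ℝ) ^ M ≤ (r : ℝ) ^ M := by
    rw [e]; linarith
  exact_mod_cast this

theorem t (hAU : G_AU) (hBU : G_BU) (hWR : G_WR) (hEP : G_EP) : G_N4 := by
  intro n r k c hn hr hk hD hc
  have hE := (hEP n r k hn (by omega) hk).1
  refine ⟨hE, ?_⟩
  have hcd := cd_of n r k hr hk hD
  have hq := Pool.Agent.Helper70.EH.N3.quad n r hr hn hcd
  obtain ⟨M, hM⟩ : ∃ M, n + r = M + 2 := ⟨n + r - 2, by omega⟩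
  have e1 : n + r - 1 = M + 1 := by omega
  have e2 : n + r - 2 = M := by omega
  have hC0 : (0 : ℝ) < ((n + r - 1).choose n : ℝ) := by
    have : 0 < (n + r - 1).choose n := Nat.choose_pos (by omega)
    exact_mod_cast this
  have hs0 : (0 : ℝ) ≤ (r.factorial : ℝ) * (Nat.stirlingSecond (n + r) r : ℝ) := by positivity
  set C : ℝ := ((n + r - 1).choose n : ℝ) with hC
  set s : ℝ := (r.factorial : ℝ) * (Nat.stirlingSecond (n + r) r : ℝ) with hs
  rw [e2] at hD
  rw [e1, e2]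
  rw [hM] at hE ⊢
  have hr3 : (3 : ℝ) ≤ r := by exact_mod_cast hr
  have hn3 : (3 : ℝ) ≤ n := by exact_mod_cast hn
  have hkr : ∀ i, (1 : ℝ) ≤ k i := fun i => by exact_mod_cast hk i
  set K : ℝ := ∑ j, (k j : ℝ) with hK
  have hKr : (r : ℝ) ≤ K := by
    have : ∑ _j : Fin r, (1 : ℝ) ≤ ∑ j, (k j : ℝ) := Finset.sum_le_sum fun j _ => hkr j
    simpa using this
  have hKi : ∀ i, 0 ≤ K - k i := fun i => by
    have : (k i : ℝ) ≤ K := by
      rw [hK]
      exact Finset.single_le_sum (f := fun j => (k j : ℝ)) (fun j _ => by positivity) (Finset.mem_univ i)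
    linarith
  have hK0 : 0 < K := by linarith
  have hD1 : 4 * ∑ i, (K - k i) ^ (M + 1) ≤ K ^ (M + 1) := by
    have h1 : ∑ i, (K - k i) ^ (M + 1) ≤ ∑ i, (K - k i) ^ M * K := by
      refine Finset.sum_le_sum fun i _ => ?_
      rw [pow_succ]
      exact mul_le_mul_of_nonneg_left (by linarith [hkr i]) (pow_nonneg (hKi i) M)
    rw [← Finset.sum_mul] at h1
    rw [pow_succ]
    have h2 := mul_le_mul_of_nonneg_right hD hK0.le
    linarith
  have hM1 : 1 ≤ M := by omega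
  have t0 := hBU r M k (by omega) hk hM1 hD
  have t1 := hBU r (M + 1) k (by omega) hk (by omega) hD1
  have s1 := (hAU r (M + 1) k (by omega) (by omega)).1
  have s2 := (hAU r (M + 2) k (by omega) (by omega)).2
  have w := hWR r (M + 1) k (by omega) hk (by omega)
  rw [← hK] at t0 t1 s1 s2 w
  have hMr : (M : ℝ) + 2 = n + r := by exact_mod_cast hM.symm
  have e3 : ((M + 1 : ℕ) : ℝ) = (n : ℝ) + r - 1 := by push_cast; linarith
  have e4 : (((M + 1 : ℕ) : ℝ) + 1 - r) = n := by push_cast; linarith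
  rw [e3] at w
  have e4' : ((n : ℝ) + r - 1 + 1 - r) = n := by ring
  rw [e4'] at w
  have hKM : (0 : ℝ) < K ^ M := by positivity
  have p1 : K ^ (M + 1) = K * K ^ M := by rw [pow_succ]; ring
  have p2 : K ^ (M + 2) = K ^ 2 * K ^ M := by rw [pow_add]; ring
  rw [p1] at t1 s1 hD1
  rw [p2] at s2
  have s1' : 3 / 4 * (K * K ^ M) ≤ ak k (M + 1) := by linarith
  have w' : wt k (M + 1) * (((n : ℝ) + r - 1) * K) ≤ wt k (M + 2) * (n * r) := w
  generalize wt k (M + 1) = w1 at w' ⊢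
  generalize wt k (M + 2) = w0 at w' hE ⊢
  generalize ak k (M + 1) = a1 at s1' ⊢
  generalize ak k (M + 2) = a0 at s2 hE ⊢
  generalize bk k (M + 1) = b1 at t1 ⊢
  generalize bk k M = b0 at t0 ⊢
  generalize K ^ M = P at t0 t1 s1' s2 hKM
  clear w s1 hD hD1 hcd
  clear_value C s K
  set x : ℝ := (n : ℝ) with hx
  set R : ℝ := (r : ℝ) with hR
  set g : ℝ := (x + R - 1) * (3 / 4 * (x + R) - 4 / 3) - 2 * x * R with hg
  have hA : (0 : ℝ) < x + R - 1 := by linarith
  have hg9 : (x + R - 1) ^ 2 ≤ 9 * g := by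
    rw [hg]
    nlinarith
  have hgpos : 0 < g := by nlinarith [pow_pos hA 2]
  have hE0 : 0 ≤ s * w0 - C * a0 := by linarith
  -- the bracket
  set Br : ℝ := 2 * c * (s * w0 - C * a0) + (x + R) * C * ((x + R) * a1 - b1) - 2 * (x + R) * s * w1 with hBr
  have hc0 : (0 : ℝ) ≤ c := le_trans (by positivity) hc
  have k1 : s * w1 * ((x + R - 1) * K) ≤ (s * w0 - C * a0 + C * (K ^ 2 * P)) * (x * R) := by
    have h1 := mul_le_mul_of_nonneg_left w' hs0
    have h2 : C * a0 ≤ C * (K ^ 2 * P) := mul_le_mul_of_nonneg_left s2 hC0.le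
    have h3 : s * w0 * (x * R) ≤ (s * w0 - C * a0 + C * (K ^ 2 * P)) * (x * R) :=
      mul_le_mul_of_nonneg_right (by linarith) (by positivity)
    linarith
  have k2 : 0 ≤ (s * w0 - C * a0) * (2 * c * (x + R - 1) * K - 2 * (x + R) * (x * R)) := by
    apply mul_nonneg hE0
    have h1 : (x + R) ^ 2 * ((x + R - 1) * R) ≤ c * ((x + R - 1) * K) :=
      mul_le_mul hc (mul_le_mul_of_nonneg_left hKr hA.le) (by positivity) hc0
    have h2 : (x + R) * (x * R) ≤ (x + R) ^ 2 * ((x + R - 1) * R) := by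
      have h3 : x ≤ (x + R) * (x + R - 1) := by nlinarith
      have h4 := mul_le_mul_of_nonneg_left h3 (by positivity : (0 : ℝ) ≤ (x + R) * R)
      linarith
    linarith
  have k3 : (x + R) * (3 / 4 * (K * P)) - 4 / 3 * (K * P) ≤ (x + R) * a1 - b1 := by
    have := mul_le_mul_of_nonneg_left s1' (by linarith : (0 : ℝ) ≤ x + R)
    linarith
  have k4 : C * (x + R) * (K * P) * g * K ≤ (x + R - 1) * Br * K := by
    have h1 := mul_le_mul_of_nonneg_left k3 (by positivity : (0 : ℝ) ≤ (x + R - 1) * ((x + R) * C) * K)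
    have h2 := mul_le_mul_of_nonneg_left k1 (by positivity : (0 : ℝ) ≤ 2 * (x + R))
    rw [hBr, hg]
    linarith
  have k5 : C * (x + R) * (K * P) * g ≤ (x + R - 1) * Br := le_of_mul_le_mul_right k4 hK0
  have hBrpos : 0 < Br := by
    have h1 : 0 < C * (x + R) * (K * P) * g := by positivity
    have h2 : 0 < (x + R - 1) * Br := lt_of_lt_of_le h1 k5
    exact (mul_pos_iff_of_pos_left hA).1 h2
  -- conclusion
  have k6 : (x + R - 1) * ((x + R) * (x + R - 1) ^ 3 * C * b0) < (x + R - 1) * (4 * c * Br) := by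
    calc (x + R - 1) * ((x + R) * (x + R - 1) ^ 3 * C * b0)
        ≤ (x + R - 1) * ((x + R) * (x + R - 1) ^ 3 * C * (4 / 3 * P)) := by
          apply mul_le_mul_of_nonneg_left _ hA.le
          exact mul_le_mul_of_nonneg_left t0 (by positivity)
      _ = 4 / 3 * (C * (x + R) * P) * ((x + R - 1) ^ 2 * (x + R - 1) ^ 2) := by ring
      _ < 4 / 3 * (C * (x + R) * P) * ((x + R) ^ 2 * (9 * g)) := by
          apply mul_lt_mul_of_pos_left _ (by positivity)
          have h6 : (x + R - 1) ^ 2 < (x + R) ^ 2 := by nlinarith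
          have h7 : 0 < (x + R - 1) ^ 2 := by positivity
          calc (x + R - 1) ^ 2 * (x + R - 1) ^ 2 < (x + R) ^ 2 * (x + R - 1) ^ 2 :=
                mul_lt_mul_of_pos_right h6 h7
            _ ≤ (x + R) ^ 2 * (9 * g) := mul_le_mul_of_nonneg_left hg9 (by positivity)
      _ ≤ 4 * (x + R) ^ 2 * (C * (x + R) * (K * P) * g) := by
          have h5 : 0 ≤ C * (x + R) * P * ((x + R) ^ 2 * g) := by positivity
          have hK3 : 0 ≤ K - 3 := by linarith
          nlinarith [mul_nonneg h5 hK3]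
      _ ≤ 4 * c * ((x + R - 1) * Br) := by
          have h8 : 0 ≤ (x + R - 1) * Br := by positivity
          calc 4 * (x + R) ^ 2 * (C * (x + R) * (K * P) * g) ≤ 4 * (x + R) ^ 2 * ((x + R - 1) * Br) :=
                mul_le_mul_of_nonneg_left k5 (by positivity)
            _ ≤ 4 * c * ((x + R - 1) * Br) := mul_le_mul_of_nonneg_right (by linarith) h8
      _ = (x + R - 1) * (4 * c * Br) := by ring
  exact lt_of_mul_lt_mul_left k6 hA.le

end Pool.Agent.Helper70.EH.N4
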