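import Pool.Agent.Helper70.EH.Goals
import Pool.Agent.Helper17.EQ.N1

/-!
# EH-R2: two diagrams
-/

namespace Pool.Agent.Helper70.EH.R2

open Pool.Agent.Helper70.EQ Pool.Agent.Helper70.EH Pool.Agent.Helper17.EQ.N1

theorem filt : (Finset.univ.filter (fun J : Finset (Fin 2) => J.Nonempty)) = {{0}, {1}, {0, 1}} := by decide

theorem ak2 (k : Fin 2 → ℕ) (M : ℕ) : ak k M = ((k 0 : ℝ) + k 1) ^ M - (k 0 : ℝ) ^ M - (k 1 : ℝ) ^ M := by
  unfold ak
  rw [filt, Finset.sum_insert (by decide), Finset.sum_insert (by decide), Finset.sum_singleton, Finset.sum_singleton,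
    Finset.sum_singleton, Finset.sum_pair (by decide), Finset.card_singleton, Finset.card_singleton,
    Finset.card_pair (by decide)]
  norm_num
  ring

theorem bk2 (k : Fin 2 → ℕ) (M : ℕ) : bk k M = ((k 0 : ℝ) + k 1) ^ M + (k 0 : ℝ) ^ M + (k 1 : ℝ) ^ M := by
  unfold bk
  rw [filt, Finset.sum_insert (by decide), Finset.sum_insert (by decide), Finset.sum_singleton, Finset.sum_singleton,
    Finset.sum_singleton, Finset.sum_pair (by decide)]
  ring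

theorem wt2 (k : Fin 2 → ℕ) (M : ℕ) : wt k M = ∑ i ∈ Finset.Ico 1 M, (k 0 : ℝ) ^ i * (k 1 : ℝ) ^ (M - i) := by
  unfold wt
  refine Finset.sum_bij' (fun m _ => m 0) (fun i _ => ![i, M - i]) ?_ ?_ ?_ ?_ ?_
  · intro m hm
    rw [Finset.mem_filter, Finset.mem_piAntidiag, Fin.sum_univ_two] at hm
    rw [Finset.mem_Ico]
    have := hm.2 0
    have := hm.2 1
    have := hm.1.1
    omega
  · intro i hi
    rw [Finset.mem_Ico] at hi
    rw [Finset.mem_filter, Finset.mem_piAntidiag, Fin.sum_univ_two]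
    refine ⟨⟨?_, fun _ _ => Finset.mem_univ _⟩, ?_⟩
    · show i + (M - i) = M
      omega
    · intro j
      fin_cases j
      · show 1 ≤ i
        omega
      · show 1 ≤ M - i
        omega
  · intro m hm
    rw [Finset.mem_filter, Finset.mem_piAntidiag, Fin.sum_univ_two] at hm
    funext j
    fin_cases j
    · rfl
    · show M - m 0 = m 1
      have := hm.1.1
      omega
  · intro i hi
    rfl
  · intro m hm
    rw [Finset.mem_filter, Finset.mem_piAntidiag, Fin.sum_univ_two] at hm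
    rw [Fin.prod_univ_two]
    have h : M - m 0 = m 1 := by
      have := hm.1.1
      omega
    rw [h]

/-- The real inequality. -/
theorem core (hCJ : G_CJ) (hEX : G_EX) (N : ℕ) (hN : 5 ≤ N) (u l : ℝ) (hl : 1 ≤ l) (hul : l ≤ u) :
    0 ≤ ((2 : ℝ) ^ N - 2) * (∑ i ∈ Finset.Ico 1 N, u ^ i * l ^ (N - i)) - ((N : ℝ) - 1) * ((u + l) ^ N - u ^ N - l ^ N) ∧
    ((N : ℝ) - 1) ^ 4 * ((u + l) ^ (N - 2) + u ^ (N - 2) + l ^ (N - 2)) < 4 * (N : ℝ) ^ 2 * (2 * N *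
      (((2 : ℝ) ^ N - 2) * (∑ i ∈ Finset.Ico 1 N, u ^ i * l ^ (N - i)) - ((N : ℝ) - 1) * ((u + l) ^ N - u ^ N - l ^ N)) +
      (((N : ℝ) - 1) * ((N : ℝ) * ((u + l) ^ (N - 1) - u ^ (N - 1) - l ^ (N - 1)) -
        ((u + l) ^ (N - 1) + u ^ (N - 1) + l ^ (N - 1))) - 2 * ((2 : ℝ) ^ N - 2) *
        (∑ i ∈ Finset.Ico 1 (N - 1), u ^ i * l ^ (N - 1 - i)))) := by
  have hl0 : 0 < l := by linarith
  obtain ⟨y, hy⟩ : ∃ y, y = u / l - 1 := ⟨_, rfl⟩
  have hu : u = l * (1 + y) := by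
    rw [hy]
    field_simp
    ring
  have hy0 : 0 ≤ y := by
    rw [hy, sub_nonneg, le_div_iff₀ hl0]
    linarith
  have hul2 : u + l = l * (2 + y) := by rw [hu]; ring
  obtain ⟨x1, x2, x3⟩ := hEX N y (by omega)
  have hsum : ∀ M : ℕ, ∑ i ∈ Finset.Ico 1 M, u ^ i * l ^ (M - i) = l ^ M * ∑ i ∈ Finset.Ico 1 M, (1 + y) ^ i := by
    intro M
    rw [Finset.mul_sum]
    refine Finset.sum_congr rfl fun i hi => ?_
    rw [Finset.mem_Ico] at hi
    rw [hu, mul_pow]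
    have : l ^ M = l ^ i * l ^ (M - i) := by
      rw [← pow_add]
      congr 1
      omega
    rw [this]
    ring
  have hN' : (5 : ℝ) ≤ N := by exact_mod_cast hN
  set E1 : ℝ := ∑ j ∈ Finset.Ico 1 N, ce N j * y ^ j with hE1
  set R1 : ℝ := ((N : ℝ) - 1) * ((N : ℝ) * (2 ^ (N - 1) - 2) - (2 ^ (N - 1) + 2)) - 2 * (2 ^ N - 2) * ((N : ℝ) - 2) +
      ∑ j ∈ Finset.Ico 1 N, cf N j * y ^ j with hR1
  set B1 : ℝ := 2 ^ (N - 2) + 2 + ∑ j ∈ Finset.Ico 1 N, cg N j * y ^ j with hB1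
  have hB10 : 0 ≤ B1 := by
    rw [← x3]
    positivity
  have hE10 : 0 ≤ E1 := Finset.sum_nonneg fun j hj => by
    rw [Finset.mem_Ico] at hj
    exact mul_nonneg (hCJ N j hN hj.1 (by omega)).1 (pow_nonneg hy0 _)
  have eE : ((2 : ℝ) ^ N - 2) * (∑ i ∈ Finset.Ico 1 N, u ^ i * l ^ (N - i)) - ((N : ℝ) - 1) * ((u + l) ^ N - u ^ N - l ^ N) =
      l ^ N * E1 := by
    rw [hsum, ← x1, hul2, mul_pow, hu, mul_pow]
    ring
  have eR : (((N : ℝ) - 1) * ((N : ℝ) * ((u + l) ^ (N - 1) - u ^ (N - 1) - l ^ (N - 1)) -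
        ((u + l) ^ (N - 1) + u ^ (N - 1) + l ^ (N - 1))) - 2 * ((2 : ℝ) ^ N - 2) *
        (∑ i ∈ Finset.Ico 1 (N - 1), u ^ i * l ^ (N - 1 - i))) = l ^ (N - 1) * R1 := by
    rw [hsum, ← x2, hul2, mul_pow, hu, mul_pow]
    ring
  have eB : (u + l) ^ (N - 2) + u ^ (N - 2) + l ^ (N - 2) = l ^ (N - 2) * B1 := by
    rw [← x3, hul2, mul_pow, hu, mul_pow]
    ring
  have hK : ((N : ℝ) - 1) ^ 4 / (4 * N ^ 2) * B1 < 2 * N * E1 + R1 := by
    have h0 := Pool.Agent.Helper17.EQ.N1.t (N - 2) 2 ((N : ℝ) ^ 2) (by omega) (by norm_num) le_rfl (by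
      rw [Nat.cast_sub (by omega)]
      push_cast
      apply le_of_eq
      ring)
    unfold Pool.Agent.Helper70.EQ.Num at h0
    rw [s2 _ (by omega), s2 _ (by omega), t2 _ (by omega), t2 _ (by omega)] at h0
    rw [show N - 2 + 2 - 2 = N - 2 by omega, show N - 2 + 2 - 1 = N - 1 by omega, show N - 2 + 2 = N by omega,
      Nat.cast_sub (by omega : 2 ≤ N)] at h0
    push_cast at h0
    have hd : 2 * N * E1 + R1 - ((N : ℝ) - 1) ^ 4 / (4 * N ^ 2) * B1 =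
        (((N : ℝ) - 1) * ((N : ℝ) * (2 ^ (N - 1) - 2) - (2 ^ (N - 1) + 2)) - 2 * (2 ^ N - 2) * ((N : ℝ) - 2) -
          ((N : ℝ) - 1) ^ 4 / (4 * N ^ 2) * (2 ^ (N - 2) + 2)) +
        ∑ j ∈ Finset.Ico 1 N, (2 * N * ce N j + cf N j - ((N : ℝ) - 1) ^ 4 / (4 * N ^ 2) * cg N j) * y ^ j := by
      have : ∀ j, (2 * N * ce N j + cf N j - ((N : ℝ) - 1) ^ 4 / (4 * N ^ 2) * cg N j) * y ^ j =
          2 * N * (ce N j * y ^ j) + cf N j * y ^ j - ((N : ℝ) - 1) ^ 4 / (4 * N ^ 2) * (cg N j * y ^ j) := by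
        intro j
        ring
      simp_rw [this]
      rw [Finset.sum_sub_distrib, Finset.sum_add_distrib, ← Finset.mul_sum, ← Finset.mul_sum, hE1, hR1, hB1]
      ring
    have hs : 0 ≤ ∑ j ∈ Finset.Ico 1 N, (2 * N * ce N j + cf N j - ((N : ℝ) - 1) ^ 4 / (4 * N ^ 2) * cg N j) * y ^ j :=
      Finset.sum_nonneg fun j hj => by
        rw [Finset.mem_Ico] at hj
        exact mul_nonneg (hCJ N j hN hj.1 (by omega)).2 (pow_nonneg hy0 _)
    have h1 : ((N : ℝ) - 1) ^ 4 / (4 * N ^ 2) * (2 ^ (N - 2) + 2) <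
        ((N : ℝ) - 1) * ((N : ℝ) * (2 ^ (N - 1) - 2) - (2 ^ (N - 1) + 2)) - 2 * (2 ^ N - 2) * ((N : ℝ) - 2) := by
      rw [div_mul_eq_mul_div, div_lt_iff₀ (by positivity)]
      have e1 : (N : ℝ) - 2 + 2 = N := by ring
      rw [e1] at h0
      linarith
    linarith
  have hh0 : 0 ≤ ((N : ℝ) - 1) ^ 4 / (4 * N ^ 2) * B1 := by positivity
  refine ⟨by rw [eE]; positivity, ?_⟩
  rw [eE, eR, eB]
  have p1 : l ^ N = l ^ (N - 2) * l ^ 2 := by
    rw [← pow_add]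
    congr 1
    omega
  have p2 : l ^ (N - 1) = l ^ (N - 2) * l := by
    rw [← pow_succ]
    congr 1
    omega
  have hlp : 0 < l ^ (N - 2) := by positivity
  have h2 : 2 * N * E1 + R1 ≤ 2 * N * (l ^ 2 * E1) + l * R1 := by
    have h3 : l * (2 * N * E1 + R1) ≤ 2 * N * (l ^ 2 * E1) + l * R1 := by
      have : 0 ≤ 2 * N * E1 * (l * (l - 1)) := by
        have : 0 ≤ l - 1 := by linarith
        positivity
      nlinarith
    have h4 : 2 * N * E1 + R1 ≤ l * (2 * N * E1 + R1) := by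
      have : 0 < 2 * N * E1 + R1 := by linarith
      nlinarith
    linarith
  have h5 : ((N : ℝ) - 1) ^ 4 * B1 < 4 * N ^ 2 * (2 * N * (l ^ 2 * E1) + l * R1) := by
    have h6 : ((N : ℝ) - 1) ^ 4 / (4 * N ^ 2) * B1 < 2 * N * (l ^ 2 * E1) + l * R1 := by linarith
    rw [div_mul_eq_mul_div, div_lt_iff₀ (by positivity)] at h6
    linarith
  rw [p1, p2]
  have h7 := mul_lt_mul_of_pos_left h5 hlp
  calc ((N : ℝ) - 1) ^ 4 * (l ^ (N - 2) * B1) = l ^ (N - 2) * (((N : ℝ) - 1) ^ 4 * B1) := by ring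
    _ < l ^ (N - 2) * (4 * N ^ 2 * (2 * N * (l ^ 2 * E1) + l * R1)) := h7
    _ = _ := by ring

/-- The numerical condition for two diagrams in terms of two reals. -/
theorem numH_of (hSR : G_SR) (n : ℕ) (k : Fin 2 → ℕ) (c : ℝ) (hn : 3 ≤ n) (hc : ((n : ℝ) + 2) ^ 2 ≤ c)
    (h : 0 ≤ ((2 : ℝ) ^ (n + 2) - 2) * wt k (n + 2) - ((n : ℝ) + 1) * ak k (n + 2) ∧
      ((n : ℝ) + 1) ^ 4 * bk k n < 4 * ((n : ℝ) + 2) ^ 2 * (2 * ((n : ℝ) + 2) *
      (((2 : ℝ) ^ (n + 2) - 2) * wt k (n + 2) - ((n : ℝ) + 1) * ak k (n + 2)) +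
      (((n : ℝ) + 1) * (((n : ℝ) + 2) * ak k (n + 1) - bk k (n + 1)) - 2 * ((2 : ℝ) ^ (n + 2) - 2) * wt k (n + 1)))) :
    NumH n 2 k c := by
  have hs : (Nat.factorial 2 : ℝ) * (Nat.stirlingSecond (n + 2) 2 : ℝ) = 2 ^ (n + 2) - 2 := by
    rw [← (hSR 2 (n + 2)).1, s2 _ (by omega)]
  have hC : ((n + 2 - 1).choose n : ℝ) = (n : ℝ) + 1 := by
    rw [show n + 2 - 1 = n + 1 by omega, Nat.choose_succ_self_right]
    push_cast
    ring
  obtain ⟨h1, h2⟩ := h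
  unfold NumH
  rw [hs, hC, show n + 2 - 2 = n by omega, show n + 2 - 1 = n + 1 by omega]
  push_cast
  set E := ((2 : ℝ) ^ (n + 2) - 2) * wt k (n + 2) - ((n : ℝ) + 1) * ak k (n + 2) with hE
  set R := (((n : ℝ) + 1) * (((n : ℝ) + 2) * ak k (n + 1) - bk k (n + 1)) - 2 * ((2 : ℝ) ^ (n + 2) - 2) * wt k (n + 1)) with hR
  refine ⟨by linarith, ?_⟩
  have hb : 0 ≤ bk k n := by
    unfold bk
    positivity
  have hn0 : (0 : ℝ) ≤ n := Nat.cast_nonneg n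
  have hpos : 0 < 2 * ((n : ℝ) + 2) * E + R := by
    by_contra hcon
    have : 4 * ((n : ℝ) + 2) ^ 2 * (2 * ((n : ℝ) + 2) * E + R) ≤ 0 :=
      mul_nonpos_of_nonneg_of_nonpos (by positivity) (not_lt.1 hcon)
    have h0 : 0 ≤ ((n : ℝ) + 1) ^ 4 * bk k n := by positivity
    linarith
  have e1 : (2 * c * E + ((n : ℝ) + 2) * ((n : ℝ) + 1) * (((n : ℝ) + 2) * ak k (n + 1) - bk k (n + 1)) -
      2 * ((n : ℝ) + 2) * ((2 : ℝ) ^ (n + 2) - 2) * wt k (n + 1)) = 2 * c * E + ((n : ℝ) + 2) * R := by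
    rw [hR]
    ring
  have h3 : ((n : ℝ) + 2) * (2 * ((n : ℝ) + 2) * E + R) ≤ 2 * c * E + ((n : ℝ) + 2) * R := by
    have := mul_le_mul_of_nonneg_right hc h1
    nlinarith
  have h4 : 4 * ((n : ℝ) + 2) ^ 2 * (((n : ℝ) + 2) * (2 * ((n : ℝ) + 2) * E + R)) ≤ 4 * c * (2 * c * E + ((n : ℝ) + 2) * R) := by
    have h5 : 0 ≤ ((n : ℝ) + 2) * (2 * ((n : ℝ) + 2) * E + R) := by positivity
    have hc0 : 0 ≤ 4 * c := by nlinarith
    calc 4 * ((n : ℝ) + 2) ^ 2 * (((n : ℝ) + 2) * (2 * ((n : ℝ) + 2) * E + R)) ≤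
        4 * c * (((n : ℝ) + 2) * (2 * ((n : ℝ) + 2) * E + R)) := by
          refine mul_le_mul_of_nonneg_right ?_ h5
          linarith
      _ ≤ _ := mul_le_mul_of_nonneg_left h3 hc0
  have h6 : ((n : ℝ) + 2) * (((n : ℝ) + 1) ^ 4 * bk k n) <
      4 * ((n : ℝ) + 2) ^ 2 * (((n : ℝ) + 2) * (2 * ((n : ℝ) + 2) * E + R)) := by
    have := mul_lt_mul_of_pos_left h2 (by positivity : (0 : ℝ) < (n : ℝ) + 2)
    linarith
  calc ((n : ℝ) + 2) * ((n : ℝ) + 2 - 1) ^ 3 * ((n : ℝ) + 1) * bk k n = ((n : ℝ) + 2) * (((n : ℝ) + 1) ^ 4 * bk k n) := by ring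
    _ < 4 * c * (2 * c * E + ((n : ℝ) + 2) * R) := lt_of_lt_of_le h6 h4
    _ = _ := by rw [← e1]

theorem t (hCJ : G_CJ) (hEX : G_EX) (hSR : G_SR) : G_R2 := by
  intro n k c hn hk hc
  have key : ∀ k : Fin 2 → ℕ, (∀ i, 1 ≤ k i) → k 1 ≤ k 0 → NumH n 2 k c := by
    intro k hk hle
    refine numH_of hSR n k c hn hc ?_
    have h := core hCJ hEX (n + 2) (by omega) (k 0) (k 1) (by exact_mod_cast hk 1) (by exact_mod_cast hle)
    rw [ak2, ak2, bk2, bk2, wt2, wt2]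
    rw [show n + 2 - 2 = n by omega, show n + 2 - 1 = n + 1 by omega] at h
    push_cast at h
    have e : (n : ℝ) + 2 - 1 = n + 1 := by ring
    rw [e] at h
    exact h
  rcases le_total (k 1) (k 0) with h | h
  · exact key k hk h
  · have h2 := key (fun i => k (Fin.rev i)) (fun i => hk _) h
    have ea : ∀ M, ak (fun i => k (Fin.rev i)) M = ak k M := by
      intro M
      rw [ak2, ak2]
      show ((k 1 : ℝ) + k 0) ^ M - (k 1 : ℝ) ^ M - (k 0 : ℝ) ^ M = _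
      rw [add_comm (k 1 : ℝ)]
      ring
    have eb : ∀ M, bk (fun i => k (Fin.rev i)) M = bk k M := by
      intro M
      rw [bk2, bk2]
      show ((k 1 : ℝ) + k 0) ^ M + (k 1 : ℝ) ^ M + (k 0 : ℝ) ^ M = _
      rw [add_comm (k 1 : ℝ)]
      ring
    have ew : ∀ M, wt (fun i => k (Fin.rev i)) M = wt k M := by
      intro M
      rw [wt2, wt2]
      show ∑ i ∈ Finset.Ico 1 M, (k 1 : ℝ) ^ i * (k 0 : ℝ) ^ (M - i) = _
      refine Finset.sum_bij' (fun i _ => M - i) (fun i _ => M - i) ?_ ?_ ?_ ?_ ?_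
      · intro i hi
        rw [Finset.mem_Ico] at hi ⊢
        omega
      · intro i hi
        rw [Finset.mem_Ico] at hi ⊢
        omega
      · intro i hi
        rw [Finset.mem_Ico] at hi
        omega
      · intro i hi
        rw [Finset.mem_Ico] at hi
        omega
      · intro i hi
        rw [Finset.mem_Ico] at hi
        have : M - (M - i) = i := by omega
        rw [this]
        ring
    unfold NumH at h2 ⊢
    rw [ea, ea, eb, eb, ew, ew] at h2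
    exact h2

end Pool.Agent.Helper70.EH.R2
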