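import Pool.Agent.Helper70.EQ.Asm
import Pool.Agent.Helper70.EH.MB
import Pool.Agent.Helper70.EH.FI
import Pool.Agent.Helper70.EH.R2
import Pool.Agent.Helper70.EH.N4
import Pool.Agent.Helper9.EH.PB
import Pool.Agent.Helper66.EH.MT
import Pool.Agent.Helper76.EH.WT

/-!
# Project EH (MP_20ee5e_ag): assembly
-/

open MeasureTheory Set

namespace Pool.Agent.Helper70.EH

open Pool.Agent.Helper70.KN Pool.Agent.Helper70.EQ

theorem rPB : Pool.Agent.Helper70.EH.G_PB := Pool.Agent.Helper9.EH.PB.t qLB qUB qML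
theorem rMT : Pool.Agent.Helper70.EH.G_MT := Pool.Agent.Helper66.EH.MT.t pVJ
theorem rWT : Pool.Agent.Helper70.EH.G_WT := Pool.Agent.Helper76.EH.WT.t
theorem rMB : Pool.Agent.Helper70.EH.G_MB := Pool.Agent.Helper70.EH.MB.t rMT rWT qXX pAL
theorem rFI : Pool.Agent.Helper70.EH.G_FI := Pool.Agent.Helper70.EH.FI.t rPB rMB qXX qPO

/-- The theorem for complete intersections with homothetic Newton diagrams, all parts together. -/
theorem main0 (hCK : G_CK) (hR2 : G_R2) (hN4 : G_N4) (n r : ℕ) (hn : 3 ≤ n) (hr : 1 ≤ r) (k : Fin r → ℕ) (hk : ∀ i, 1 ≤ k i)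
    (V : Finset (Fin (n + r) → ℕ)) (hV : Convenient V)
    (h0 : (0 : Fin (n + r) → ℕ) ∉ V) (c : ℕ) (hc : ∀ v ∈ V, ∀ i, v i ≠ 0 → c ≤ v i)
    (h : (n + r) ^ 2 ≤ c ∧ (r ≤ 2 ∨ 4 * ∑ i, (∑ j ∈ Finset.univ.erase i, k j) ^ (n + r - 2) ≤ (∑ j, k j) ^ (n + r - 2)) ∨ n + r ≤ c ∧
      ((n + r - 1).choose n : ℝ) * ak k (n + r) ≤
        (r.factorial : ℝ) * (Nat.stirlingSecond (n + r) r : ℝ) * wt k (n + r) ∧
      ((n : ℝ) + r) * ((n : ℝ) + r - 1) ^ 3 * ((n + r - 1).choose n : ℝ) * bk k (n + r - 2) <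
        4 * (c : ℝ) * (2 * (c : ℝ) * ((r.factorial : ℝ) * (Nat.stirlingSecond (n + r) r : ℝ) * wt k (n + r) -
            ((n + r - 1).choose n : ℝ) * ak k (n + r)) +
          ((n : ℝ) + r) * ((n + r - 1).choose n : ℝ) * (((n : ℝ) + r) * ak k (n + r - 1) - bk k (n + r - 1)) -
          2 * ((n : ℝ) + r) * ((r.factorial : ℝ) * (Nat.stirlingSecond (n + r) r : ℝ)) * wt k (n + r - 1))) :
    (∀ j : ℕ, 1 ≤ j →
        {p : Fin (n + r) → ℕ | (∀ i, 0 < p i) ∧ (fun i => (p i : ℝ)) ∉ interior (newton (mult j V))}.Finite) ∧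
      (∀ I : Finset (Fin (n + r)), volume {y : I → ℝ | extz I y ∈ under V} ≠ ⊤) ∧
      ((n + r - 1).choose n : ℝ) * ((n + r).factorial : ℝ) * genusH k V <
        (r.factorial : ℝ) * (Nat.stirlingSecond (n + r) r : ℝ) * milnorH k V := by
  refine ⟨fun j hj => Pool.Agent.Helper65.KG.genus_finite _ (qML (n + r) V j hj hV).1,
    Pool.Agent.Helper65.KG.vol_finite V hV, ?_⟩
  have hn' : (3 : ℝ) ≤ n := by exact_mod_cast hn
  have hr' : (1 : ℝ) ≤ r := by exact_mod_cast hr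
  have hcle : n + r ≤ c := by
    rcases h with h | h
    · refine le_trans ?_ h.1
      nlinarith
    · exact h.1
  have hcR : (n : ℝ) + r ≤ c := by exact_mod_cast hcle
  have hT : Thick V (c : ℝ) := ⟨hV, by linarith, h0, fun v hv i hi => by exact_mod_cast hc v hv i hi⟩
  refine rFI n r k V c hn hr hk hT hcR ?_
  rcases h with ⟨h1, h2⟩ | h
  · have h1' : ((n : ℝ) + r) ^ 2 ≤ c := by exact_mod_cast h1
    rcases Nat.lt_or_ge r 3 with h3 | h3
    · rcases (by omega : r = 1 ∨ r = 2) with h4 | h4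
      · subst h4
        exact hCK n 1 k c hn hr hk (fun i j => by rw [Subsingleton.elim i j]) (by linarith)
          (qN1 n 1 c hn hr (by norm_num) h1')
      · subst h4
        exact hR2 n k c hn hk (by exact_mod_cast h1')
    · rcases h2 with h2 | h2
      · omega
      · refine hN4 n r k c hn h3 hk ?_ h1'
        have e : ∀ i, ((∑ j ∈ Finset.univ.erase i, k j : ℕ) : ℝ) = (∑ j, (k j : ℝ)) - k i := fun i => by
          rw [Nat.cast_sum, Finset.sum_erase_eq_sub (Finset.mem_univ i)]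
        have h4 : ((4 * ∑ i, (∑ j ∈ Finset.univ.erase i, k j) ^ (n + r - 2) : ℕ) : ℝ) ≤
            (((∑ j, k j) ^ (n + r - 2) : ℕ) : ℝ) := by exact_mod_cast h2
        rw [Nat.cast_mul, Nat.cast_sum, Nat.cast_pow, Nat.cast_sum] at h4
        simp only [Nat.cast_pow, e] at h4
        exact_mod_cast h4
  · exact h.2

end Pool.Agent.Helper70.EH
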