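import Pool.Agent.Helper70.EH.Goals2
import Pool.Agent.Helper96.EH.CK

/-!
# EH-EP: the inequality between the leading coefficients, and the case of different factors
-/

namespace Pool.Agent.Helper70.EH.EP

open Pool.Agent.Helper70.EQ Pool.Agent.Helper70.EH Pool.Agent.Helper96.EH.CK

theorem t (hMX : G_MX) (hSE : G_SE) (hSR : G_SR) : G_EP := by
  intro n r k hn hr hk
  have hS : (r.factorial : ℝ) * (Nat.stirlingSecond (n + r) r : ℝ) = sj r (n + r) := ((hSR r (n + r)).1).symm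
  have hC : (n + r - 1).choose n = (n + r - 1).choose (r - 1) := by
    have : n + r - 1 = n + (r - 1) := by omega
    rw [this, Nat.choose_symm_add]
  obtain ⟨w1, a1⟩ := hSE r (n + r) k hr (by omega) hk
  obtain ⟨w0, a0⟩ := hSE r (n + r) (fun _ => 1) hr (by omega) (fun _ => le_rfl)
  rw [wt_eq r 1 (fun _ => 1) (fun _ => rfl) (n + r) hr (by omega)] at w0
  rw [ak_eq r 1 (fun _ => 1) (fun _ => rfl) (n + r) (by omega)] at a0
  have e : n + r - r = n := by omega
  rw [e] at w0 a0 w1 a1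
  simp only [Nat.cast_one, one_pow, one_mul, Finset.prod_const_one, mul_one] at w0 a0
  have hx : ∀ i, 0 < (fun i => (k i : ℝ)) i := fun i => by
    have := hk i
    show (0 : ℝ) < k i
    exact_mod_cast this
  obtain ⟨m1, m2⟩ := hMX r n (fun i => (k i : ℝ)) hr (by omega) hx
  have hP : (0 : ℝ) < ∏ i, (k i : ℝ) := Finset.prod_pos fun i _ => hx i
  have hF : (0 : ℝ) < ((n + r).factorial : ℝ) := by positivity
  have key : ((n + r - 1).choose n : ℝ) * ak k (n + r) - (r.factorial : ℝ) * (Nat.stirlingSecond (n + r) r : ℝ) * wt k (n + r) =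
      ((n + r).factorial : ℝ) * (∏ i, (k i : ℝ)) * df n (fun i => (k i : ℝ)) := by
    rw [hS, hC, w0, a0, w1, a1]
    unfold df
    ring
  constructor
  · have : ((n + r).factorial : ℝ) * (∏ i, (k i : ℝ)) * df n (fun i => (k i : ℝ)) ≤ 0 :=
      mul_nonpos_of_nonneg_of_nonpos (by positivity) m1
    linarith
  · rintro ⟨i, j, hij⟩
    have h3 := m2 ⟨i, j, by
      show (k i : ℝ) ≠ k j
      exact_mod_cast hij⟩
    have : ((n + r).factorial : ℝ) * (∏ i, (k i : ℝ)) * df n (fun i => (k i : ℝ)) < 0 :=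
      mul_neg_of_pos_of_neg (by positivity) h3
    linarith

theorem gs_nonneg {r : ℕ} (φ : ℕ → ℝ) (hφ : ∀ j, 0 ≤ φ j) (d : ℕ) (x : Fin r → ℝ) (hx : ∀ i, 0 ≤ x i) : 0 ≤ gs φ d x := by
  unfold gs
  rw [PowerSeries.coeff_prod]
  refine Finset.sum_nonneg fun l _ => Finset.prod_nonneg fun i _ => ?_
  rw [PowerSeries.coeff_mk]
  exact mul_nonneg (hφ _) (pow_nonneg (hx i) _)

theorem ak_int {r : ℕ} (k : Fin r → ℕ) (M : ℕ) : ∃ z : ℤ, ak k M = z := by
  refine ⟨∑ J ∈ Finset.univ.filter (fun J : Finset (Fin r) => J.Nonempty), (-1) ^ (r - J.card) * (∑ i ∈ J, (k i : ℤ)) ^ M, ?_⟩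
  unfold ak
  push_cast
  rfl

theorem wt_int {r : ℕ} (k : Fin r → ℕ) (M : ℕ) : ∃ z : ℤ, wt k M = z := by
  refine ⟨∑ m ∈ (Finset.piAntidiag Finset.univ M).filter (fun m : Fin r → ℕ => ∀ i, 1 ≤ m i), ∏ i, (k i : ℤ) ^ m i, ?_⟩
  unfold wt
  push_cast
  rfl

theorem sq_le_two_pow (M : ℕ) (hM : 4 ≤ M) : M ^ 2 ≤ 2 ^ M := by
  induction M, hM using Nat.le_induction with
  | base => norm_num
  | succ M hM ih =>
    rw [pow_succ 2 M]
    nlinarith

/-- Different factors, `c` large. -/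
theorem large (hEP : G_EP) (hSE : G_SE) (n r : ℕ) (k : Fin r → ℕ) (c : ℝ) (hn : 3 ≤ n) (hr : 1 ≤ r) (hk : ∀ i, 1 ≤ k i)
    (hne : ∃ i j, k i ≠ k j)
    (hc : ((n : ℝ) + r) * (((n + r - 1).choose n : ℝ) * bk k (n + r - 1) +
      2 * ((r.factorial : ℝ) * (Nat.stirlingSecond (n + r) r : ℝ)) * wt k (n + r - 1)) ≤ c) :
    (n : ℝ) + r ≤ c ∧ NumH n r k c := by
  obtain ⟨h1, h2⟩ := hEP n r k hn hr hk
  have h2' := h2 hne
  have hr2 : 2 ≤ r := by
    obtain ⟨i, j, hij⟩ := hne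
    by_contra hcon
    have hr1 : r = 1 := by omega
    subst hr1
    exact hij (by rw [Subsingleton.elim i j])
  have hkr : ∀ i, (1 : ℝ) ≤ k i := fun i => by exact_mod_cast hk i
  -- `E ≥ 1`
  obtain ⟨za, hza⟩ := ak_int k (n + r)
  obtain ⟨zw, hzw⟩ := wt_int k (n + r)
  have hE : 1 ≤ (r.factorial : ℝ) * (Nat.stirlingSecond (n + r) r : ℝ) * wt k (n + r) -
      ((n + r - 1).choose n : ℝ) * ak k (n + r) := by
    rw [hza, hzw] at h2' ⊢
    have h3 : (((n + r - 1).choose n : ℤ) * za : ℤ) < (r.factorial : ℤ) * (Nat.stirlingSecond (n + r) r : ℤ) * zw := by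
      exact_mod_cast h2'
    have h4 : (1 : ℤ) ≤ (r.factorial : ℤ) * (Nat.stirlingSecond (n + r) r : ℤ) * zw - ((n + r - 1).choose n : ℤ) * za := by
      omega
    exact_mod_cast h4
  -- nonnegativity
  have hw1 : 0 ≤ wt k (n + r - 1) := by
    unfold wt
    positivity
  have ha1 : 0 ≤ ak k (n + r - 1) := by
    rw [(hSE r (n + r - 1) k hr (by omega) hk).2]
    have : 0 ≤ gs ph (n + r - 1 - r) (fun i => (k i : ℝ)) :=
      gs_nonneg ph (fun j => by unfold ph; positivity) _ _ (fun i => by positivity)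
    positivity
  have hs0 : 0 ≤ (r.factorial : ℝ) * (Nat.stirlingSecond (n + r) r : ℝ) := by positivity
  have hC1 : (1 : ℝ) ≤ ((n + r - 1).choose n : ℝ) := by
    exact_mod_cast Nat.choose_pos (show n ≤ n + r - 1 by omega)
  have hb2 : bk k (n + r - 2) ≤ bk k (n + r - 1) := by
    unfold bk
    refine Finset.sum_le_sum fun J hJ => ?_
    rw [Finset.mem_filter] at hJ
    refine pow_le_pow_right₀ ?_ (by omega)
    obtain ⟨i, hi⟩ := hJ.2
    exact (hkr i).trans (Finset.single_le_sum (f := fun i => (k i : ℝ)) (fun _ _ => by positivity) hi)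
  have hb20 : 0 ≤ bk k (n + r - 2) := by
    unfold bk
    positivity
  have hb1 : ((n : ℝ) + r - 1) ^ 2 ≤ bk k (n + r - 1) := by
    have h5 : (∑ i ∈ (Finset.univ : Finset (Fin r)), (k i : ℝ)) ^ (n + r - 1) ≤ bk k (n + r - 1) := by
      unfold bk
      refine Finset.single_le_sum (f := fun J : Finset (Fin r) => (∑ i ∈ J, (k i : ℝ)) ^ (n + r - 1))
        (fun _ _ => by positivity) ?_
      rw [Finset.mem_filter]
      exact ⟨Finset.mem_univ _, ⟨⟨0, by omega⟩, Finset.mem_univ _⟩⟩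
    have h6 : (2 : ℝ) ≤ ∑ i ∈ (Finset.univ : Finset (Fin r)), (k i : ℝ) := by
      have : ∑ i ∈ (Finset.univ : Finset (Fin r)), (1 : ℝ) ≤ ∑ i ∈ (Finset.univ : Finset (Fin r)), (k i : ℝ) :=
        Finset.sum_le_sum fun i _ => hkr i
      rw [Finset.sum_const, Finset.card_univ, Fintype.card_fin, nsmul_eq_mul, mul_one] at this
      have h7 : (2 : ℝ) ≤ r := by exact_mod_cast hr2
      linarith
    have h8 : (2 : ℝ) ^ (n + r - 1) ≤ (∑ i ∈ (Finset.univ : Finset (Fin r)), (k i : ℝ)) ^ (n + r - 1) :=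
      pow_le_pow_left₀ (by norm_num) h6 _
    have h9 := sq_le_two_pow (n + r - 1) (by omega)
    have h10 : ((n + r - 1 : ℕ) : ℝ) ^ 2 ≤ 2 ^ (n + r - 1) := by exact_mod_cast h9
    rw [Nat.cast_sub (by omega)] at h10
    push_cast at h10
    linarith
  unfold NumH
  set C : ℝ := ((n + r - 1).choose n : ℝ)
  set s : ℝ := (r.factorial : ℝ) * (Nat.stirlingSecond (n + r) r : ℝ)
  set b1 := bk k (n + r - 1)
  set b2 := bk k (n + r - 2)
  set w1 := wt k (n + r - 1)
  set a1 := ak k (n + r - 1)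
  set E := s * wt k (n + r) - C * ak k (n + r)
  have hn' : (3 : ℝ) ≤ n := by exact_mod_cast hn
  have hr' : (2 : ℝ) ≤ r := by exact_mod_cast hr2
  obtain ⟨M, hM⟩ : ∃ M, M = (n : ℝ) + r := ⟨_, rfl⟩
  rw [← hM] at hc hb1 ⊢
  have hM5 : 5 ≤ M := by rw [hM]; linarith
  have hb10 : 1 ≤ b1 := by nlinarith
  have hCb : b1 ≤ C * b1 := by nlinarith
  have hsw : 0 ≤ 2 * s * w1 := by positivity
  have hMb : M * b1 ≤ c := by
    have : M * b1 ≤ M * (C * b1 + 2 * s * w1) := by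
      refine mul_le_mul_of_nonneg_left ?_ (by linarith)
      linarith
    linarith
  have hMc : M ≤ c := by nlinarith
  have hc0 : 0 < c := by linarith
  refine ⟨hMc, h1, ?_⟩
  have hR : -(M * (C * b1 + 2 * s * w1)) ≤ M * C * (M * a1 - b1) - 2 * M * s * w1 := by
    have : 0 ≤ M * C * (M * a1) := by positivity
    nlinarith
  have hin : c ≤ 2 * c * E + M * C * (M * a1 - b1) - 2 * M * s * w1 := by
    have : 2 * c * 1 ≤ 2 * c * E := mul_le_mul_of_nonneg_left hE (by positivity)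
    linarith
  have h11 : 4 * c * c ≤ 4 * c * (2 * c * E + M * C * (M * a1 - b1) - 2 * M * s * w1) :=
    mul_le_mul_of_nonneg_left hin (by positivity)
  have hMCb : M * (C * b1) ≤ c := by
    have : M * (C * b1) ≤ M * (C * b1 + 2 * s * w1) := by
      refine mul_le_mul_of_nonneg_left ?_ (by linarith)
      linarith
    linarith
  have hcM : (M - 1) ^ 3 < 4 * c := by
    have h12 : M * (M - 1) ^ 2 ≤ M * b1 := mul_le_mul_of_nonneg_left hb1 (by linarith)
    have h13 : (M - 1) ^ 3 ≤ M * (M - 1) ^ 2 := by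
      have : 0 ≤ (M - 1) ^ 2 := sq_nonneg _
      nlinarith
    linarith
  calc M * (M - 1) ^ 3 * C * b2 ≤ M * (M - 1) ^ 3 * C * b1 := by
        refine mul_le_mul_of_nonneg_left hb2 ?_
        have : 0 ≤ M - 1 := by linarith
        positivity
    _ = (M - 1) ^ 3 * (M * (C * b1)) := by ring
    _ ≤ (M - 1) ^ 3 * c := by
        refine mul_le_mul_of_nonneg_left hMCb ?_
        have : 0 ≤ M - 1 := by linarith
        positivity
    _ < 4 * c * c := mul_lt_mul_of_pos_right hcM hc0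
    _ ≤ _ := h11

end Pool.Agent.Helper70.EH.EP
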