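import Pool.Agent.Helper70.EQ.Goals

/-!
# Project EH (MP_20ee5e_ag), complete intersections with homothetic Newton diagrams: definitions and goals

THEOREM (helper70). `N = n + r`, `n ≥ 3`, `r ≥ 1`, `k_1, ..., k_r ≥ 1`, `V` convenient, all nonzero coordinates `≥ c`, `c ≥ N`: under
the numerical condition `NumH`, `C(N-1,n) N! genusH < r! S(N,r) milnorH`. Every packet is a `Prop` with its proof in the docstring.
Prove `theorem t : G_XX` (goals listed as USES are arguments `(h : G_YY)`; goals `S_XX` are those of Helper70/KN/Goals.lean, goals of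
project EQ are in Helper70/EQ/Goals.lean, all landed). If a statement is false as it stands, mail helper70 at once.
-/

open MeasureTheory Set

namespace Pool.Agent.Helper70.EH

open Pool.Agent.Helper70.KN Pool.Agent.Helper70.EQ

variable {N r : ℕ}

/-- The geometric genus of a non-degenerate complete intersection of `r` hypersurfaces with the Newton polyhedra of
`k_1 V, ..., k_r V` (Khovanskii, Morales): the alternating sum of the genera of the multiples `k_J V`, `k_J = ∑_{i ∈ J} k_i`. -/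
noncomputable def genusH (k : Fin r → ℕ) (V : Finset (Fin N → ℕ)) : ℝ :=
  ∑ J ∈ Finset.univ.filter (fun J : Finset (Fin r) => J.Nonempty), (-1) ^ (r - J.card) * genus (mult (∑ i ∈ J, k i) V)

/-- `w(M)`: the sum of the products `∏ k_i^(m_i)` over all `m_1, ..., m_r ≥ 1` with sum `M`. -/
def wt (k : Fin r → ℕ) (M : ℕ) : ℝ :=
  ∑ m ∈ (Finset.piAntidiag Finset.univ M).filter (fun m : Fin r → ℕ => ∀ i, 1 ≤ m i), ∏ i, (k i : ℝ) ^ m i

/-- The Milnor number of a non-degenerate complete intersection of `r` hypersurfaces with the Newton polyhedra of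
`k_1 V, ..., k_r V` (Khovanskii, Oka). -/
noncomputable def milnorH (k : Fin r → ℕ) (V : Finset (Fin N → ℕ)) : ℝ :=
  ∑ I ∈ Finset.univ.filter (fun I : Finset (Fin N) => r ≤ I.card),
    (-1) ^ (N - I.card) * wt k I.card * (I.card.factorial : ℝ) * vol V I - (-1) ^ (N - r)

/-- `a(M)`: the alternating sum of the `k_J^M`. -/
def ak (k : Fin r → ℕ) (M : ℕ) : ℝ :=
  ∑ J ∈ Finset.univ.filter (fun J : Finset (Fin r) => J.Nonempty), (-1) ^ (r - J.card) * (∑ i ∈ J, (k i : ℝ)) ^ M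

/-- `b(M)`: the sum of the `k_J^M`. -/
def bk (k : Fin r → ℕ) (M : ℕ) : ℝ :=
  ∑ J ∈ Finset.univ.filter (fun J : Finset (Fin r) => J.Nonempty), (∑ i ∈ J, (k i : ℝ)) ^ M

/-- The numerical condition, `N = n + r`, `C = C(N-1,n)`, `s = r! S(N,r)`. -/
def NumH (n r : ℕ) (k : Fin r → ℕ) (c : ℝ) : Prop :=
  ((n + r - 1).choose n : ℝ) * ak k (n + r) ≤ (r.factorial : ℝ) * (Nat.stirlingSecond (n + r) r : ℝ) * wt k (n + r) ∧
  ((n : ℝ) + r) * ((n : ℝ) + r - 1) ^ 3 * ((n + r - 1).choose n : ℝ) * bk k (n + r - 2) <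
    4 * c * (2 * c * ((r.factorial : ℝ) * (Nat.stirlingSecond (n + r) r : ℝ) * wt k (n + r) -
          ((n + r - 1).choose n : ℝ) * ak k (n + r)) +
        ((n : ℝ) + r) * ((n + r - 1).choose n : ℝ) * (((n : ℝ) + r) * ak k (n + r - 1) - bk k (n + r - 1)) -
        2 * ((n : ℝ) + r) * ((r.factorial : ℝ) * (Nat.stirlingSecond (n + r) r : ℝ)) * wt k (n + r - 1))

/-- PB. The upper bound of the geometric genus. USES: G_LB, G_UB, G_ML (project EQ).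
PROOF. As `Helper94/EQ/PB.lean`, with the sum over `J` and `j = ∑ i ∈ J, k i ≥ 1`: UB for `mult j V` if `r - |J|` is even, LB if it is
odd; `(-1)^(r-|J|) N! genus (mult j V)` is at most `(-1)^(r-|J|) (j^N T0 - N/2 j^(N-1) T1) + j^(N-1) T1 / 2 + (N-1)^3 / (8c) j^(N-2) T1`. -/
def G_PB : Prop := ∀ (N r : ℕ) (k : Fin r → ℕ) (V : Finset (Fin N → ℕ)) (c : ℝ), (∀ i, 1 ≤ k i) → 3 ≤ N → Thick V c → 1 ≤ c →
  (N.factorial : ℝ) * genusH k V ≤ ak k N * T V 0 - (N * ak k (N - 1) - bk k (N - 1)) / 2 * T V 1 +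
    ((N : ℝ) - 1) ^ 3 / (8 * c) * bk k (N - 2) * T V 1

/-- MT. The Milnor number in terms of `T`. USES: S_VJ. PROOF. As `Helper48/EQ/MT.lean`, with `wt k` instead of the binomials. -/
def G_MT : Prop := ∀ (N r : ℕ) (k : Fin r → ℕ) (V : Finset (Fin N → ℕ)), 1 ≤ r → r ≤ N →
  milnorH k V = ∑ q ∈ Finset.range (N - r + 1), (-1) ^ q * wt k (N - q) * T V q - (-1) ^ (N - r)

/-- WT. PROOF. `m ↦ m + e_0` (`e_0` the indicator of the index `0 : Fin r`) is injective from the set of `wt k M` to the one of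
`wt k (M+1)` and multiplies the term by `k 0 ≥ 1`; the terms are `≥ 0`. For `M = r` the term `m = 1` is `∏ k i ≥ 1`. -/
def G_WT : Prop := ∀ (r : ℕ) (k : Fin r → ℕ), 1 ≤ r → (∀ i, 1 ≤ k i) → (∀ M, wt k M ≤ wt k (M + 1)) ∧ (∀ M, 0 ≤ wt k M) ∧ 1 ≤ wt k r

/-- MB (helper70). The lower bound of the Milnor number. USES: MT, WT, S_XX, S_AL. -/
def G_MB : Prop := ∀ (N r : ℕ) (k : Fin r → ℕ) (V : Finset (Fin N → ℕ)) (c : ℝ), (∀ i, 1 ≤ k i) → 1 ≤ r → r + 3 ≤ N → Thick V c →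
  (N : ℝ) ≤ c → wt k N * T V 0 - wt k (N - 1) * T V 1 ≤ milnorH k V

/-- CK. Equal `k_i`. USES: G_SR (project EQ).
PROOF. All `k i` are equal to `κ ≥ 1`. `ak k M = κ^M sj r M`, `bk k M = κ^M tj r M` for `M ≥ 1` (group the `J` by their number of
elements `j`, there are `C(r,j)`, and `j = 0` contributes `0^M = 0`), `wt k M = κ^M C(M-1,r-1)` for `M ≥ r` (number of compositions of `M`
in `r` positive parts: `m ↦ m - 1` to `Finset.piAntidiag univ (M - r)`, whose card is `C(M-1, r-1)`, see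
`Finset.card_piAntidiag` / `Sym.card_sym_eq_choose` / `Nat.multichoose`). With `s = sj r N` (SR), `C = C(N-1,n) = C(N-1,r-1)` and
`(N-1) C(N-2,r-1) = n C` (`choose_step` in `Helper70/EQ/FI.lean`) the first part of `NumH` is an equality, and the second one is `Num n r c` times
`N C κ^(N-2) / (N-1)`, up to `κ ≥ 1` (the right side of `Num` is positive, because the left side is `≥ 0`). -/
def G_CK : Prop := ∀ (n r : ℕ) (k : Fin r → ℕ) (c : ℝ), 3 ≤ n → 1 ≤ r → (∀ i, 1 ≤ k i) → (∀ i j, k i = k j) → 0 < c → Num n r c →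
  NumH n r k c

/-- The coefficients of `E` (times `1`), `N = a + b`, `j = a - 1`: `e = (2^N - 2) C(N, j+1) - (N-1) C(N,j) (2^(N-j) - 1)`. -/
def ce (N j : ℕ) : ℝ := (2 ^ N - 2) * (N.choose (j + 1) : ℝ) - ((N : ℝ) - 1) * (N.choose j : ℝ) * (2 ^ (N - j) - 1)

/-- The coefficients of the second order part. -/
def cf (N j : ℕ) : ℝ := ((N : ℝ) - 1) * ((N - 1).choose j : ℝ) * ((N : ℝ) * (2 ^ (N - 1 - j) - 1) - (2 ^ (N - 1 - j) + 1)) -
  2 * (2 ^ N - 2) * ((N - 1).choose (j + 1) : ℝ)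

/-- The coefficients of the third order part. -/
def cg (N j : ℕ) : ℝ := ((N - 2).choose j : ℝ) * (2 ^ (N - 2 - j) + 1)

/-- CJ. PROOF. `a = j + 1`, `b = N - a`, `X = 2^b`, `2^N = 2^a X`. `C(N,j+1) = N/a C(N-1,j)`, `C(N,j) = N/(b+1) C(N-1,j)`,
`C(N-1,j+1) = b/a C(N-1,j)`, `C(N-2,j) = b/(N-1) C(N-1,j)`. So `ce = C(N-1,j) N e'`, `e' = (2^a X - 2)/a - (N-1)(2X - 1)/(b+1)`, and, as
`(N-1)^3 ≤ N^2 (N-2)`: `2N ce + cf - (N-1)^4/(4N^2) cg ≥ C(N-1,j) [2N^2 e' + (N-1)((N-1)X - N - 1) - 2b(2^a X - 2)/a - (N-2) b (X/2 + 1)/4]`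
(for `j = N - 1`, `b = 0`, the natural number exponent `2^(N-2-j)` is `1` but `cg = 0`). Both brackets are `≥ 0`: multiply by `a (b+1)`; for `a = 2`
`e' = 0` and `b ≥ 3`; `a = 3`, `b ≥ 2`; `a = 4`, `b ≥ 1`; `a = 5`, `b ≥ 0`: polynomials in `b` and `X ≥ b + 1` (`X ≥ 8` for `b ≥ 3` ...); `a ≥ 6`:
`2^a ≥ 32 a (a-1) / 15` and `15 · ... `: `2^a (b+1) (2N^2 - 2b) ≥ 4 a (N-1) N^2`, because `N - 1 ≤ (a-1)(b+1)` and `16 b ≤ N^2`. Checked
exactly for `N ≤ 59`. -/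
def G_CJ : Prop := ∀ N j : ℕ, 5 ≤ N → 1 ≤ j → j + 1 ≤ N →
  0 ≤ ce N j ∧ 0 ≤ 2 * N * ce N j + cf N j - ((N : ℝ) - 1) ^ 4 / (4 * N ^ 2) * cg N j

/-- EX. PROOF. Binomial theorem for `(2 + y)^M` and `(1 + y)^M`, and `∑_{i < M} (1+y)^i = ∑_j C(M,j+1) y^j` (induction on `M`).
The sums over `i ∈ Ico 1 M` are those over `range M` minus `1`. The term `j = 0` is written separately. -/
def G_EX : Prop := ∀ (N : ℕ) (y : ℝ), 3 ≤ N →
  ((2 : ℝ) ^ N - 2) * (∑ i ∈ Finset.Ico 1 N, (1 + y) ^ i) - ((N : ℝ) - 1) * ((2 + y) ^ N - (1 + y) ^ N - 1) =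
      ∑ j ∈ Finset.Ico 1 N, ce N j * y ^ j ∧
  ((N : ℝ) - 1) * ((N : ℝ) * ((2 + y) ^ (N - 1) - (1 + y) ^ (N - 1) - 1) - ((2 + y) ^ (N - 1) + (1 + y) ^ (N - 1) + 1)) -
      2 * (2 ^ N - 2) * (∑ i ∈ Finset.Ico 1 (N - 1), (1 + y) ^ i) =
      ((N : ℝ) - 1) * ((N : ℝ) * (2 ^ (N - 1) - 2) - (2 ^ (N - 1) + 2)) - 2 * (2 ^ N - 2) * ((N : ℝ) - 2) +
      ∑ j ∈ Finset.Ico 1 N, cf N j * y ^ j ∧
  (2 + y) ^ (N - 2) + (1 + y) ^ (N - 2) + 1 = 2 ^ (N - 2) + 2 + ∑ j ∈ Finset.Ico 1 N, cg N j * y ^ j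

/-- R2 (helper70). Two diagrams. USES: CJ, EX, G_N1 (project EQ). -/
def G_R2 : Prop := ∀ (n : ℕ) (k : Fin 2 → ℕ) (c : ℝ), 3 ≤ n → (∀ i, 1 ≤ k i) → ((n : ℝ) + 2) ^ 2 ≤ c → NumH n 2 k c

/-- FI (helper70). USES: PB, MB, S_XX, S_PO. -/
def G_FI : Prop := ∀ (n r : ℕ) (k : Fin r → ℕ) (V : Finset (Fin (n + r) → ℕ)) (c : ℝ), 3 ≤ n → 1 ≤ r → (∀ i, 1 ≤ k i) →
  Thick V c → (n : ℝ) + r ≤ c → NumH n r k c →
  ((n + r - 1).choose n : ℝ) * ((n + r).factorial : ℝ) * genusH k V <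
    (r.factorial : ℝ) * (Nat.stirlingSecond (n + r) r : ℝ) * milnorH k V

end Pool.Agent.Helper70.EH
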