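import Pool.Agent.Helper70.EH.Goals

/-!
# Project EH (MP_20ee5e_ag), part 2: the inequality between the leading coefficients, for all `k_1, ..., k_r`

`C(N-1,r-1) a(N) ≤ r! S(N,r) w(N)`, strictly if the `k_i` are not all equal (Kerner-Némethi's composition inequality; here a short
proof by averaging two variables and a maximum principle). Deliver `theorem t : G_XX` as in part 1.
-/



namespace Pool.Agent.Helper70.EH

open Pool.Agent.Helper70.KN Pool.Agent.Helper70.EQ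

/-- The coefficient of `z^d` in `∏_i ∑_j φ_j (x_i z)^j`. -/
noncomputable def gs {r : ℕ} (φ : ℕ → ℝ) (d : ℕ) (x : Fin r → ℝ) : ℝ :=
  PowerSeries.coeff d (∏ i, PowerSeries.mk fun j => φ j * x i ^ j)

/-- `1 / (j+1)!`. -/
noncomputable def ph (j : ℕ) : ℝ := ((j + 1).factorial : ℝ)⁻¹

/-- The difference which is to be `≤ 0`. -/
noncomputable def df {r : ℕ} (d : ℕ) (x : Fin r → ℝ) : ℝ :=
  gs (fun _ => 1) d (fun _ : Fin r => (1 : ℝ)) * gs ph d x - gs ph d (fun _ : Fin r => (1 : ℝ)) * gs (fun _ => 1) d x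

/-- TW. Two variables. PROOF. Chebyshev's inequality (`AntivaryOn.card_mul_sum_le_sum_mul_sum` or a double sum by hand: twice the
difference is `∑_{p,q} (u_p - u_q)(v_q - v_p)`), `u_p = ph p.1 ph p.2`, `v_p = (x^p.1 y^p.2 + x^p.2 y^p.1) / 2` (the sums do not change
under `p ↦ p.swap`): `u` is larger and `v` smaller for the `p` nearer to the middle: `ph a ph (t-a) ≥ ph b ph (t-b)` and
`x^a y^(t-a) + x^(t-a) y^a ≤ x^b y^(t-b) + x^(t-b) y^b` if `b ≤ a ≤ t - a` (step by step: `(x^(t-2b-1) - y^(t-2b-1))(x - y) ≥ 0`).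
Strict for `t ≥ 2`, `x ≠ y`: the pair `b = 0`, `a = 1`: `1/(t+1)! < 1/(2 t!)`, and `x^t + y^t > x^(t-1) y + x y^(t-1)`. -/
def G_TW : Prop := ∀ (t : ℕ) (x y : ℝ), 0 < x → 0 < y →
  ((t : ℝ) + 1) * ∑ p ∈ Finset.HasAntidiagonal.antidiagonal t, ph p.1 * ph p.2 * (x ^ p.1 * y ^ p.2) ≤
      (∑ p ∈ Finset.HasAntidiagonal.antidiagonal t, ph p.1 * ph p.2) * ∑ p ∈ Finset.HasAntidiagonal.antidiagonal t, x ^ p.1 * y ^ p.2 ∧
  (2 ≤ t → x ≠ y → ((t : ℝ) + 1) * ∑ p ∈ Finset.HasAntidiagonal.antidiagonal t, ph p.1 * ph p.2 * (x ^ p.1 * y ^ p.2) <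
      (∑ p ∈ Finset.HasAntidiagonal.antidiagonal t, ph p.1 * ph p.2) * ∑ p ∈ Finset.HasAntidiagonal.antidiagonal t, x ^ p.1 * y ^ p.2)

/-- IN. PROOF. `x = y`: clear. Else substitute `u = y + (x - y) θ` (`intervalIntegral.integral_comp_add_mul`), `integral_pow`, and
`x^(t+1) - y^(t+1) = (x - y) ∑ x^p.1 y^p.2` (`Finset.Nat.antidiagonal` sum to `range`, `Commute.geom_sum₂` / `geom_sum₂_mul`). -/
def G_IN : Prop := ∀ (t : ℕ) (x y : ℝ), ∫ θ in (0 : ℝ)..1, (θ * x + (1 - θ) * y) ^ t =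
  (∑ p ∈ Finset.HasAntidiagonal.antidiagonal t, x ^ p.1 * y ^ p.2) / ((t : ℝ) + 1)

/-- PS. Averaging. USES: TW, IN.
PROOF. `∏_l Φ(x_l) = Φ(x_i) Φ(x_j) R_φ` (`Finset.mul_prod_erase` twice), `R_φ` does not change under the update, its coefficients are
`≥ 0` and the one of degree `0` is `φ_0^(r-2) > 0`. So `gs φ d x = ∑_{(t,s)} (∑_{p ∈ antidiagonal t} φ φ x_i^p.1 x_j^p.2) coeff_s R_φ`, and
for `x'` = the update by `z`: `gs φ d x' = ∑_{(t,s)} (∑_p φ φ) z^t coeff_s R_φ`. With `z = θ x_i + (1-θ) x_j` and the integral over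
`θ ∈ [0,1]` (IN): the integral of `gs 1 d x'` is `gs 1 d x`, the one of `gs ph d x'` is `> gs ph d x` (TW, strict in the term `t = d`).
So `∫ df d x' dθ > df d x` (`gs 1 d 1 > 0`), and `df d x' > df d x` for some `θ`. -/
def G_PS : Prop := ∀ (r d : ℕ) (x : Fin r → ℝ) (i j : Fin r), 2 ≤ d → (∀ l, 0 < x l) → i ≠ j → x i ≠ x j →
  ∃ z : ℝ, min (x i) (x j) ≤ z ∧ z ≤ max (x i) (x j) ∧
    df d x < df d (Function.update (Function.update x i z) j z)

/-- MX. Maximum principle. USES: PS.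
PROOF. `a = min x_l`, `b = max x_l`, `K` = the compact box of the `y` with `a ≤ y_l ≤ b`. `df d` is continuous (`PowerSeries.coeff_prod`:
a finite sum of products), so it has a maximum on `K` at some `y`. If `y` is not constant, PS gives a point of `K` with a larger
value. So `y` is constant `= λ`, and `df d y = λ^d df d 1 = 0`. If `x` is not constant, PS gives a point of `K` with a larger value
(which is `≤ 0`). -/
def G_MX : Prop := ∀ (r d : ℕ) (x : Fin r → ℝ), 1 ≤ r → 2 ≤ d → (∀ l, 0 < x l) →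
  df d x ≤ 0 ∧ ((∃ i j, x i ≠ x j) → df d x < 0)

/-- SE. PROOF. `PowerSeries.coeff_prod` and `m ↦ m - 1` for the first (see `card_pos` in `Helper96/EH/CK.lean`). Second:
`exp(κ z) - 1 = κ z ∑_j ph j κ^j z^j` for every `κ`; `∏_i (exp(k_i z) - 1) = ∑_J (-1)^(r-|J|) exp(k_J z)` (`Finset.prod_sub` or
`Finset.prod_add`, `exp(x z) exp(y z) = exp((x+y) z)`); compare the coefficients of `z^N`: `∑_J (-1)^(r-|J|) k_J^N / N!` (`J = ∅` gives
`0^N = 0`) `= ∏ k_i · coeff_(N-r)`. Alternatively the multinomial theorem with inclusion and exclusion. -/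
def G_SE : Prop := ∀ (r N : ℕ) (k : Fin r → ℕ), 1 ≤ r → r ≤ N → (∀ i, 1 ≤ k i) →
  wt k N = (∏ i, (k i : ℝ)) * gs (fun _ => 1) (N - r) (fun i => (k i : ℝ)) ∧
  ak k N = (N.factorial : ℝ) * (∏ i, (k i : ℝ)) * gs ph (N - r) (fun i => (k i : ℝ))

/-- EP (helper70). USES: MX, SE, G_SR. -/
def G_EP : Prop := ∀ (n r : ℕ) (k : Fin r → ℕ), 3 ≤ n → 1 ≤ r → (∀ i, 1 ≤ k i) →
  ((n + r - 1).choose n : ℝ) * ak k (n + r) ≤ (r.factorial : ℝ) * (Nat.stirlingSecond (n + r) r : ℝ) * wt k (n + r) ∧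
  ((∃ i j, k i ≠ k j) →
    ((n + r - 1).choose n : ℝ) * ak k (n + r) < (r.factorial : ℝ) * (Nat.stirlingSecond (n + r) r : ℝ) * wt k (n + r))

end Pool.Agent.Helper70.EH
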