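import Pool.Agent.Helper70.EH.Goals2

/-!
# Project EH (MP_20ee5e_ag), part 3: large dimension, any `k_1, ..., k_r`, coordinates `≥ N^2`

`K = ∑ k_i`. If `4 ∑_i (K - k_i)^(N-2) ≤ K^(N-2)` then `NumH` holds for `c ≥ N^2`. Deliver `theorem t : G_XX` as in part 1. All
statements are checked numerically.
-/



namespace Pool.Agent.Helper70.EH

open Pool.Agent.Helper70.KN Pool.Agent.Helper70.EQ

/-- AU. Bonferroni. PROOF. For `M ≥ 1`, `(∑ i ∈ J, k i)^M` is the sum over the `f : Fin M → Fin r` with all values in `J` of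
`∏_t k (f t)` (`Finset.prod_univ_sum`, `Fintype.piFinset`), the `J` with `im f ⊆ J` have alternating sum `1` if `im f = univ`, else `0`;
so `ak k M` is the sum over the surjective `f`, and the nonsurjective `f` miss some `i`. OR: with `A_S(M) = ∑_{J ⊆ S} (-1)^|S \ J| k_J^M`,
`A_S(M+1) = ∑_{i ∈ S} k_i (A_S(M) + A_{S \ i}(M))`, so `A_S ≥ 0` for `M ≥ 0` by induction, and `k_S^M = ∑_{T ⊆ S} A_T(M)` (`∑_{J ⊆ T ⊆ S}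
(-1)^|T \ J| = [J = S]`), so `A_S ≤ k_S^M` and `k_S^M - A_S = ∑_{T ≠ S} A_T ≤ ∑_i ∑_{T ⊆ S \ i} A_T = ∑_i k_{S \ i}^M`. -/
def G_AU : Prop := ∀ (r M : ℕ) (k : Fin r → ℕ), 1 ≤ r → 1 ≤ M →
  (∑ j, (k j : ℝ)) ^ M - ∑ i, ((∑ j, (k j : ℝ)) - k i) ^ M ≤ ak k M ∧ ak k M ≤ (∑ j, (k j : ℝ)) ^ M

/-- BU. PROOF. `K = ∑ k_j > 0`, `y_i = ((K - k_i) / K)^M`, so `∑ y_i ≤ 1/4`. For every `J`: `k_J / K = 1 - ∑_{i ∉ J} k_i / K ≤ ∏_{i ∉ J} (1 - k_i / K)`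
(Weierstrass, induction), so `k_J^M ≤ K^M ∏_{i ∉ J} y_i`, and the sum over all `J` of `∏_{i ∉ J} y_i` is `∏_i (1 + y_i)` (`Finset.prod_add`),
which is `≤ exp (∑ y_i) ≤ exp (1/4) ≤ 4/3` (`exp_quarter` in Helper69/EQ/N2.lean). Compare with `tj_le` there. -/
def G_BU : Prop := ∀ (r M : ℕ) (k : Fin r → ℕ), 1 ≤ r → (∀ i, 1 ≤ k i) → 1 ≤ M →
  4 * ∑ i, ((∑ j, (k j : ℝ)) - k i) ^ M ≤ (∑ j, (k j : ℝ)) ^ M → bk k M ≤ 4 / 3 * (∑ j, (k j : ℝ)) ^ M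

/-- WR. PROOF. `S_M` = the `m` in the sum `wt k M` (all `m_i ≥ 1`, sum `M`), `k^m = ∏ k_i^(m_i)`, `D_i = ∑_{m ∈ S_M} m_i k^m`; `∑_i D_i = M wt k M`.
`(M + 1 - r) wt k (M+1) = ∑_i ∑_{m ∈ S_(M+1)} (m_i - 1) k^m = ∑_i k_i D_i` (the terms with `m_i ≥ 2` are `m = m' + e_i`, `m' ∈ S_M`). Chebyshev's
inequality (`Monovary.sum_mul_sum_le_card_mul_sum`): `(∑ k_i) (∑ D_i) ≤ r ∑ k_i D_i`, as `k_j ≤ k_i` implies `D_j ≤ D_i`: by the swap of `i` and `j`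
in `S_M`, `2 (D_i - D_j) = ∑_m (m_i - m_j) (k^m - k^(swap m)) ≥ 0` (`x^p y^q - x^q y^p` has the sign of `p - q` if `x ≥ y ≥ 1`). -/
def G_WR : Prop := ∀ (r M : ℕ) (k : Fin r → ℕ), 1 ≤ r → (∀ i, 1 ≤ k i) → r ≤ M →
  wt k M * ((M : ℝ) * ∑ j, (k j : ℝ)) ≤ wt k (M + 1) * (((M : ℝ) + 1 - r) * r)

/-- N4 (helper70). USES: AU, BU, WR, G_EP. -/
def G_N4 : Prop := ∀ (n r : ℕ) (k : Fin r → ℕ) (c : ℝ), 3 ≤ n → 3 ≤ r → (∀ i, 1 ≤ k i) →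
  4 * ∑ i, ((∑ j, (k j : ℝ)) - k i) ^ (n + r - 2) ≤ (∑ j, (k j : ℝ)) ^ (n + r - 2) → ((n : ℝ) + r) ^ 2 ≤ c → NumH n r k c

end Pool.Agent.Helper70.EH
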