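import Pool.Agent.Helper70.EH.Goals3

/-!
# Project EH (MP_20ee5e_ag), part 4: the bound `c ≥ 2 N` instead of `c ≥ N^2`

A family of upper bounds of the genus with a parameter `t ≤ N - 1` (only `t` of the coordinates are shifted). Deliver
`theorem t : G_XX` as in part 1. All statements are checked numerically.
-/



namespace Pool.Agent.Helper70.EH

open MeasureTheory Set Pool.Agent.Helper70.KN Pool.Agent.Helper70.EQ

/-- The numerical condition with a parameter `t ≤ N - 1`. -/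
def NumT (n r t : ℕ) (k : Fin r → ℕ) (c : ℝ) : Prop :=
  ((n + r - 1).choose n : ℝ) * ak k (n + r) ≤ (r.factorial : ℝ) * (Nat.stirlingSecond (n + r) r : ℝ) * wt k (n + r) ∧
  ((n : ℝ) + r) * ((n : ℝ) + r - 1) * (t : ℝ) ^ 2 * ((n + r - 1).choose n : ℝ) * (ak k (n + r - 2) + bk k (n + r - 2)) <
    4 * c * (4 * c * ((r.factorial : ℝ) * (Nat.stirlingSecond (n + r) r : ℝ) * wt k (n + r) -
          ((n + r - 1).choose n : ℝ) * ak k (n + r)) +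
        ((n : ℝ) + r) * ((n + r - 1).choose n : ℝ) *
          (((n : ℝ) + r + 1 + t) * ak k (n + r - 1) - ((n : ℝ) + r + 1 - t) * bk k (n + r - 1)) -
        4 * ((n : ℝ) + r) * ((r.factorial : ℝ) * (Nat.stirlingSecond (n + r) r : ℝ)) * wt k (n + r - 1))

/-- US. Only the coordinates in `S`. USES: S_JE, S_MF.
PROOF. Choose `i ∉ S`. By JE `genus V` is at most the volume of `{x ∈ under V | ∀ j ≠ i, 1/2 ≤ x j}`, which is contained in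
`{x ∈ under V | ∀ j ∈ S, 1/2 ≤ x j}`. Integrate over `under V` the pointwise inequality (`b_j` : `x j < 1/2`; `k` = number of `j ∈ S` with
`b_j`: `0 ≤ (k-1)(k-2)/2` for `k ≥ 1`)
`[no b_j, j ∈ S] ≤ 1 - ∑_{j ∈ S} [b_j] + ∑_{P ⊆ S, |P| = 2} [b_j for both j ∈ P]`. Compare with `Helper75/KN/AV.lean` (S_AV), where this is
done with `S = univ \ {i}` for all `i` together. -/
def G_US : Prop := ∀ (N : ℕ) (V : Finset (Fin N → ℕ)), Convenient V → ∀ S : Finset (Fin N), S ≠ Finset.univ →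
  (genus V : ℝ) ≤ W V ∅ - ∑ i ∈ S, Y V (1 / 2) {i} + ∑ P ∈ S.powersetCard 2, Y V (1 / 2) P

/-- UA. Averages over the sets with `t` elements (finite sets, no geometry).
PROOF. Exchange the sums; the number of `S` of size `t` containing `i` is `C(N-1,t-1)`, and `N C(N-1,t-1) = t C(N,t)`; containing a given pair:
`C(N-2,t-2)`, and `N (N-1) C(N-2,t-2) = t (t-1) C(N,t)` (for `t ≤ 1` both sides are `0`). (OR: induction on `t`; OR the symmetric function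
argument: the average of `f` over all permutations.) -/
def G_UA : Prop := ∀ (N t : ℕ) (f : Fin N → ℝ) (g : Finset (Fin N) → ℝ), t ≤ N →
  (N : ℝ) * ∑ S ∈ (Finset.univ : Finset (Fin N)).powersetCard t, ∑ i ∈ S, f i = t * (N.choose t : ℝ) * ∑ i, f i ∧
  (N : ℝ) * ((N : ℝ) - 1) * ∑ S ∈ (Finset.univ : Finset (Fin N)).powersetCard t, ∑ P ∈ S.powersetCard 2, g P =
    t * ((t : ℝ) - 1) * (N.choose t : ℝ) * ∑ P ∈ (Finset.univ : Finset (Fin N)).powersetCard 2, g P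

/-- UT. Upper bound with parameter. USES: US, UA, S_Y1, S_Y2, S_XX.
PROOF. Sum US over the `C(N,t)` sets `S` with `t` elements, use UA, and divide by `C(N,t)`:
`genus V ≤ W V ∅ - (t/N) ∑_i Y {i} + t(t-1)/(N(N-1)) ∑_P Y P`. `Y {i} ≥ (1/2 - (N-1)/(8c)) W {i}` (Y1, `h = 1/2`), `Y P ≤ W P / 4` (Y2).
Times `N!`: `N! genus ≤ T0 - t (1/2 - (N-1)/(8c)) T1 + t(t-1)/4 T2` and `2 c T2 ≤ (N-1) T1` (XX, `k = 1`). Compare with
`Helper48/EQ/UB.lean` or wherever `G_UB` is proved (it is `t = N - 1`). -/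
def G_UT : Prop := ∀ (N t : ℕ) (V : Finset (Fin N → ℕ)) (c : ℝ), 3 ≤ N → t < N → Thick V c → 1 ≤ c →
  (N.factorial : ℝ) * genus V ≤ T V 0 - (t : ℝ) / 2 * T V 1 + (t : ℝ) ^ 2 * ((N : ℝ) - 1) / (8 * c) * T V 1

/-- PT. USES: UT, and G_LB, G_ML of project EQ. PROOF. As `Helper9/EH/PB.lean` with UT instead of UB: for `r - |J|` even (UT)
`j^N T0 - t/2 j^(N-1) T1 + t^2 (N-1)/(8c) j^(N-2) T1`, for `r - |J|` odd (minus LB) `-j^N T0 + (N+1)/2 j^(N-1) T1`, where the third term may be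
replaced by `(1 + (-1)^(r-|J|)) / 2 · t^2 (N-1)/(8c) j^(N-2) T1` (it is `0`). -/
def G_PT : Prop := ∀ (N r t : ℕ) (k : Fin r → ℕ) (V : Finset (Fin N → ℕ)) (c : ℝ), (∀ i, 1 ≤ k i) → 3 ≤ N → t < N → Thick V c → 1 ≤ c →
  (N.factorial : ℝ) * genusH k V ≤ ak k N * T V 0 -
    (((N : ℝ) + 1 + t) * ak k (N - 1) - ((N : ℝ) + 1 - t) * bk k (N - 1)) / 4 * T V 1 +
    (t : ℝ) ^ 2 * ((N : ℝ) - 1) / (16 * c) * (ak k (N - 2) + bk k (N - 2)) * T V 1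

/-- C2. Coefficients. PROOF. As `Helper39/EH/CJ.lean`: `a = j + 1`, `b = N - a`, `X = 2^b`, `Y = 2^a`, `Q = C(N-1,j)`,
`ce = Q N [(YX-2)/a - (N-1)(2X-1)/(b+1)]`, `C(N-1,j+1) = Q b/a`. Times `2a(b+1)/Q` the second claim is
`4N[(b+1)(YX-2) - a(N-1)(2X-1)] + a(b+1)(N-1)(4X-(N+1)) - 2b(b+1)(YX-2) ≥ 0`: for `a = 2` it is `2(b+1)(4X - b² - 2b - 3)`, for
`a = 3, 4, 5` the coefficient of `X` is `4b²+28b-24`, `16b²+128b-80`, `44b²+444b-80` and the rest is `-3b³-13b²-10b+24`,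
`-4b³-24b²-16b+100`, `-5b³-39b²-34b+240`; for `a ≥ 6`: `Y ≥ (32/15) a(a-1)`, `(a-1)(b+1) ≥ N-1`, so `YX(b+1)(4N-2b) + 4a(b+1)(N-1)X ≥
8aN(N-1)X + ((8/15)N - (4/15)b + 4) a(N-1)X`, `X ≥ 4(b-1)`, `X ≥ b+1`. First claim: `N = 5, 6`: finitely many `j`. -/
def G_C2 : Prop := ∀ N j : ℕ, 5 ≤ N → 1 ≤ j → j + 1 ≤ N →
  (N ≤ 6 → 0 ≤ (if N = 5 then 4 else 2) * ce N j +
    ((N : ℝ) - 1) * (9 / 5 * ((N - 1).choose j : ℝ) * 2 ^ (N - 1 - j) - ((N : ℝ) + 1) / 2 * ((N - 1).choose j : ℝ)) -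
    (2 ^ N - 2) * ((N - 1).choose (j + 1) : ℝ)) ∧
  (7 ≤ N → 0 ≤ 2 * ce N j +
    ((N : ℝ) - 1) * (2 * ((N - 1).choose j : ℝ) * 2 ^ (N - 1 - j) - ((N : ℝ) + 1) / 2 * ((N - 1).choose j : ℝ)) -
    (2 ^ N - 2) * ((N - 1).choose (j + 1) : ℝ))

/-- FT (helper70). USES: PT, MB, S_XX, S_PO. -/
def G_FT : Prop := ∀ (n r t : ℕ) (k : Fin r → ℕ) (V : Finset (Fin (n + r) → ℕ)) (c : ℝ), 3 ≤ n → 1 ≤ r → t < n + r → (∀ i, 1 ≤ k i) →
  Thick V c → (n : ℝ) + r ≤ c → NumT n r t k c →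
  ((n + r - 1).choose n : ℝ) * ((n + r).factorial : ℝ) * genusH k V <
    (r.factorial : ℝ) * (Nat.stirlingSecond (n + r) r : ℝ) * milnorH k V

/-- R3 (helper70). USES: C2, CJ. -/
def G_R3 : Prop := ∀ (n : ℕ) (k : Fin 2 → ℕ) (c : ℝ), 3 ≤ n → (∀ i, 1 ≤ k i) → 2 * ((n : ℝ) + 2) ≤ c → (n = 3 → 20 ≤ c) →
  ∃ t, t < n + 2 ∧ NumT n 2 t k c

/-- N5 (helper70). USES: AU, BU, WR, EP. -/
def G_N5 : Prop := ∀ (n r : ℕ) (k : Fin r → ℕ) (c : ℝ), 3 ≤ r → 3 * r < n → (∀ i, 1 ≤ k i) →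
  ((n : ℝ) + r) ^ 2 * ∑ i, ((∑ j, (k j : ℝ)) - k i) ^ (n + r - 2) ≤ 4 * (∑ j, (k j : ℝ)) ^ (n + r - 2) → 2 * ((n : ℝ) + r) ≤ c →
  NumT n r (4 * r) k c

end Pool.Agent.Helper70.EH
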