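import Pool.Agent.Helper70.EH.Asm
import Pool.Agent.Helper70.EH.EP
import Pool.Agent.Helper39.EH.CJ
import Pool.Agent.Helper14.EH.EX
import Pool.Agent.Helper42.EH.TW
import Pool.Agent.Helper80.EH.IN
import Pool.Agent.Helper69.EH.PS
import Pool.Agent.Helper72.EH.MX
import Pool.Agent.Helper2.EH.SE
import Pool.Agent.Helper66.EH.AU
import Pool.Agent.Helper78.EH.BU
import Pool.Agent.Helper4.EH.WR

/-!
# Project EH (MP_20ee5e_ag): the theorem
-/

open MeasureTheory Set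

namespace Pool.Agent.Helper70.EH

open Pool.Agent.Helper70.KN Pool.Agent.Helper70.EQ

theorem rCK : G_CK := Pool.Agent.Helper96.EH.CK.t qSR
theorem rCJ : G_CJ := Pool.Agent.Helper39.EH.CJ.t
theorem rEX : G_EX := Pool.Agent.Helper14.EH.EX.t
theorem rR2 : G_R2 := Pool.Agent.Helper70.EH.R2.t rCJ rEX qSR
theorem rTW : G_TW := Pool.Agent.Helper42.EH.TW.t
theorem rIN : G_IN := Pool.Agent.Helper80.EH.IN.t
theorem rPS : G_PS := Pool.Agent.Helper69.EH.PS.t rTW rIN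
theorem rMX : G_MX := Pool.Agent.Helper72.EH.MX.t rPS
theorem rSE : G_SE := Pool.Agent.Helper2.EH.SE.t
theorem rEP : G_EP := Pool.Agent.Helper70.EH.EP.t rMX rSE qSR
theorem rAU : G_AU := Pool.Agent.Helper66.EH.AU.t
theorem rBU : G_BU := Pool.Agent.Helper78.EH.BU.t
theorem rWR : G_WR := Pool.Agent.Helper4.EH.WR.t
theorem rN4 : G_N4 := Pool.Agent.Helper70.EH.N4.t rAU rBU rWR rEP

/-- The theorem for complete intersections with homothetic Newton diagrams. -/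
theorem main (n r : ℕ) (hn : 3 ≤ n) (hr : 1 ≤ r) (k : Fin r → ℕ) (hk : ∀ i, 1 ≤ k i)
    (V : Finset (Fin (n + r) → ℕ)) (hV : Convenient V)
    (h0 : (0 : Fin (n + r) → ℕ) ∉ V) (c : ℕ) (hc : ∀ v ∈ V, ∀ i, v i ≠ 0 → c ≤ v i)
    (h : (n + r) ^ 2 ≤ c ∧ (r ≤ 2 ∨ 4 * ∑ i, (∑ j ∈ Finset.univ.erase i, k j) ^ (n + r - 2) ≤ (∑ j, k j) ^ (n + r - 2)) ∨
      (∃ i j, k i ≠ k j) ∧ ((n : ℝ) + r) * (((n + r - 1).choose n : ℝ) * bk k (n + r - 1) +
        2 * ((r.factorial : ℝ) * (Nat.stirlingSecond (n + r) r : ℝ)) * wt k (n + r - 1)) ≤ c ∨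
      n + r ≤ c ∧ ((n : ℝ) + r) * ((n : ℝ) + r - 1) ^ 3 * ((n + r - 1).choose n : ℝ) * bk k (n + r - 2) <
        4 * (c : ℝ) * (2 * (c : ℝ) * ((r.factorial : ℝ) * (Nat.stirlingSecond (n + r) r : ℝ) * wt k (n + r) -
            ((n + r - 1).choose n : ℝ) * ak k (n + r)) +
          ((n : ℝ) + r) * ((n + r - 1).choose n : ℝ) * (((n : ℝ) + r) * ak k (n + r - 1) - bk k (n + r - 1)) -
          2 * ((n : ℝ) + r) * ((r.factorial : ℝ) * (Nat.stirlingSecond (n + r) r : ℝ)) * wt k (n + r - 1))) :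
    (∀ j : ℕ, 1 ≤ j →
        {p : Fin (n + r) → ℕ | (∀ i, 0 < p i) ∧ (fun i => (p i : ℝ)) ∉ interior (newton (mult j V))}.Finite) ∧
      (∀ I : Finset (Fin (n + r)), volume {y : I → ℝ | extz I y ∈ under V} ≠ ⊤) ∧
      ((n + r - 1).choose n : ℝ) * ((n + r).factorial : ℝ) * genusH k V <
        (r.factorial : ℝ) * (Nat.stirlingSecond (n + r) r : ℝ) * milnorH k V := by
  refine main0 rCK rR2 rN4 n r hn hr k hk V hV h0 c hc ?_
  rcases h with h | ⟨h1, h2⟩ | ⟨h1, h2⟩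
  · exact Or.inl h
  · obtain ⟨h3, h4⟩ := Pool.Agent.Helper70.EH.EP.large rEP rSE n r k c hn hr hk h1 h2
    exact Or.inr ⟨by exact_mod_cast h3, h4.1, h4.2⟩
  · exact Or.inr ⟨h1, (rEP n r k hn hr hk).1, h2⟩

end Pool.Agent.Helper70.EH
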