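import Pool.Agent.Helper70.EH.Goals4
import Pool.Agent.Helper78.EH.BU

/-!
# Project EH (MP_20ee5e_ag), N5: any `k_1, ..., k_r`, large dimension, coordinates `≥ 2 N`
-/

set_option autoImplicit false

namespace Pool.Agent.Helper70.EH.N5

open Pool.Agent.Helper70.EH Pool.Agent.Helper70.EQ Pool.Agent.Helper78.EH.BU

/-- Upper bound of the sum of the `k_J^M`, sharper than BU. -/
theorem bu (r M : ℕ) (k : Fin r → ℕ) (θ : ℝ) (hr : 1 ≤ r) (hk : ∀ i, 1 ≤ k i) (hθ0 : 0 ≤ θ) (hθ1 : θ ≤ 1 / 21)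
    (hsum : ∑ i, ((∑ j, (k j : ℝ)) - k i) ^ M ≤ θ * (∑ j, (k j : ℝ)) ^ M) :
    bk k M ≤ (1 + 21 / 20 * θ) * (∑ j, (k j : ℝ)) ^ M := by
  classical
  set K : ℝ := ∑ j, (k j : ℝ) with hK
  have hk1 : ∀ i, (1 : ℝ) ≤ k i := fun i => by exact_mod_cast hk i
  have hkK : ∀ i, (k i : ℝ) ≤ K := fun i =>
    Finset.single_le_sum (f := fun j => (k j : ℝ)) (fun j _ => Nat.cast_nonneg _)
      (Finset.mem_univ i)
  have hKpos : 0 < K := by
    have := hkK ⟨0, by omega⟩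
    linarith [hk1 ⟨0, by omega⟩]
  set a : Fin r → ℝ := fun i => k i / K with ha
  have ha0 : ∀ i, 0 ≤ a i := fun i => div_nonneg (Nat.cast_nonneg _) hKpos.le
  have ha1 : ∀ i, a i ≤ 1 := fun i => (div_le_one hKpos).2 (hkK i)
  have hy : ∀ i, (1 - a i) ^ M = (K - k i) ^ M / K ^ M := by
    intro i
    rw [← div_pow]
    congr 1
    rw [ha]
    field_simp
  have hKM : 0 < K ^ M := pow_pos hKpos M
  have hys : ∑ i, (1 - a i) ^ M ≤ θ := by
    simp only [hy]
    rw [← Finset.sum_div, div_le_iff₀ hKM]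
    linarith
  have hJ : ∀ J : Finset (Fin r),
      (∑ i ∈ J, (k i : ℝ)) ^ M ≤ K ^ M * ∏ i ∈ Finset.univ \ J, (1 - a i) ^ M := by
    intro J
    have h1 : ∑ i ∈ J, (k i : ℝ) = K * (1 - ∑ i ∈ Finset.univ \ J, a i) := by
      have h2 : ∑ i ∈ Finset.univ \ J, (k i : ℝ) + ∑ i ∈ J, (k i : ℝ) = K :=
        Finset.sum_sdiff (Finset.subset_univ J)
      have h3 : K * ∑ i ∈ Finset.univ \ J, a i = ∑ i ∈ Finset.univ \ J, (k i : ℝ) := by
        rw [Finset.mul_sum]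
        refine Finset.sum_congr rfl fun i _ => ?_
        rw [ha]
        field_simp
      rw [mul_sub, h3, mul_one]
      linarith
    have h4 : ∑ i ∈ J, (k i : ℝ) ≤ K * ∏ i ∈ Finset.univ \ J, (1 - a i) := by
      rw [h1]
      exact mul_le_mul_of_nonneg_left (weier _ a ha0 ha1) hKpos.le
    calc (∑ i ∈ J, (k i : ℝ)) ^ M ≤ (K * ∏ i ∈ Finset.univ \ J, (1 - a i)) ^ M :=
          pow_le_pow_left₀ (Finset.sum_nonneg fun i _ => Nat.cast_nonneg _) h4 M
      _ = K ^ M * ∏ i ∈ Finset.univ \ J, (1 - a i) ^ M := by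
          rw [mul_pow, Finset.prod_pow]
  have hexp : Real.exp θ ≤ 1 + 21 / 20 * θ := by
    have h := Real.add_one_le_exp (-θ)
    have hp := Real.exp_pos θ
    have h2 : Real.exp (-θ) * Real.exp θ = 1 := by
      rw [← Real.exp_add]
      simp
    have h3 : (1 - θ) * Real.exp θ ≤ 1 := by
      rw [← h2]
      exact mul_le_mul_of_nonneg_right (by linarith) hp.le
    have h4 : 1 ≤ (1 - θ) * (1 + 21 / 20 * θ) := by nlinarith
    have h5 : (1 - θ) * Real.exp θ ≤ (1 - θ) * (1 + 21 / 20 * θ) := h3.trans h4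
    exact le_of_mul_le_mul_left h5 (by linarith)
  have hprod : ∏ i, (1 + (1 - a i) ^ M) ≤ 1 + 21 / 20 * θ := by
    calc ∏ i, (1 + (1 - a i) ^ M) ≤ ∏ i, Real.exp ((1 - a i) ^ M) := by
          refine Finset.prod_le_prod (fun i _ => ?_) (fun i _ => ?_)
          · have : 0 ≤ (1 - a i) ^ M := pow_nonneg (by linarith [ha1 i]) M
            linarith
          · linarith [Real.add_one_le_exp ((1 - a i) ^ M)]
      _ = Real.exp (∑ i, (1 - a i) ^ M) := (Real.exp_sum _ _).symm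
      _ ≤ Real.exp θ := Real.exp_le_exp.2 hys
      _ ≤ 1 + 21 / 20 * θ := hexp
  unfold bk
  calc ∑ J ∈ Finset.univ.filter (fun J : Finset (Fin r) => J.Nonempty), (∑ i ∈ J, (k i : ℝ)) ^ M
      ≤ ∑ J : Finset (Fin r), (∑ i ∈ J, (k i : ℝ)) ^ M :=
        Finset.sum_le_sum_of_subset_of_nonneg (Finset.filter_subset _ _) fun J _ _ =>
          pow_nonneg (Finset.sum_nonneg fun i _ => Nat.cast_nonneg _) M
    _ ≤ ∑ J : Finset (Fin r), K ^ M * ∏ i ∈ Finset.univ \ J, (1 - a i) ^ M :=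
        Finset.sum_le_sum fun J _ => hJ J
    _ = K ^ M * ∏ i, (1 + (1 - a i) ^ M) := by
        rw [Finset.prod_add, Finset.powerset_univ, Finset.mul_sum]
        refine Finset.sum_congr rfl fun J _ => ?_
        rw [Finset.prod_const_one, one_mul]
    _ ≤ K ^ M * (1 + 21 / 20 * θ) := mul_le_mul_of_nonneg_left hprod hKM.le
    _ = (1 + 21 / 20 * θ) * K ^ M := mul_comm _ _

/-- The real inequality at the end: `x = n`, `R = r`, `N = x + R`. -/
theorem fin (x R : ℝ) (hR : 3 ≤ R) (hx : 3 * R + 1 ≤ x) :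
    2 * R * (x + R - 1) ^ 2 * (2 * (x + R) ^ 2 + 21 / 5) <
      (x + R) * ((x + R - 1) * (8 * R * (x + R) ^ 2 - 41 / 5 * (x + R + 1)) - 4 * x * R * (x + R) ^ 2) := by
  have key : (x + R) * ((x + R - 1) * (8 * R * (x + R) ^ 2 - 41 / 5 * (x + R + 1)) - 4 * x * R * (x + R) ^ 2) -
      2 * R * (x + R - 1) ^ 2 * (2 * (x + R) ^ 2 + 21 / 5) =
      4 * R ^ 2 * (x + R) ^ 3 - 4 * R * (x + R) ^ 2 - 41 / 5 * (x + R) ^ 3 + 41 / 5 * (x + R) -
        42 / 5 * R * (x + R - 1) ^ 2 := by ring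
  have h13 : 13 ≤ x + R := by linarith
  have h1 : 36 * (x + R) ^ 3 ≤ 4 * R ^ 2 * (x + R) ^ 3 := by
    have h0 : 0 ≤ (x + R) ^ 3 := by positivity
    have h9 : 36 ≤ 4 * R ^ 2 := by nlinarith
    exact mul_le_mul_of_nonneg_right h9 h0
  have h2 : 4 * R * (x + R) ^ 2 ≤ (x + R) ^ 3 := by nlinarith [sq_nonneg (x + R)]
  have h3 : R * (x + R - 1) ^ 2 ≤ 1 / 4 * (x + R) ^ 3 := by
    have h4 : (x + R - 1) ^ 2 ≤ (x + R) ^ 2 := by nlinarith
    have h5 : R * (x + R - 1) ^ 2 ≤ R * (x + R) ^ 2 := mul_le_mul_of_nonneg_left h4 (by linarith)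
    linarith
  have h6 : 0 < (x + R) ^ 3 := by positivity
  have h7 : 0 < 41 / 5 * (x + R) := by linarith
  linarith

theorem t (hAU : G_AU) (hWR : G_WR) (hEP : G_EP) : G_N5 := by
  intro n r k c hr hn hk hD hc
  have hE := (hEP n r k (by omega) (by omega) hk).1
  refine ⟨hE, ?_⟩
  obtain ⟨M, hM⟩ : ∃ M, n + r = M + 2 := ⟨n + r - 2, by omega⟩
  have e1 : n + r - 1 = M + 1 := by omega
  have e2 : n + r - 2 = M := by omega
  have hC0 : (0 : ℝ) < ((n + r - 1).choose n : ℝ) := by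
    have : 0 < (n + r - 1).choose n := Nat.choose_pos (by omega)
    exact_mod_cast this
  have hs0 : (0 : ℝ) ≤ (r.factorial : ℝ) * (Nat.stirlingSecond (n + r) r : ℝ) := by positivity
  set C : ℝ := ((n + r - 1).choose n : ℝ) with hC
  set s : ℝ := (r.factorial : ℝ) * (Nat.stirlingSecond (n + r) r : ℝ) with hs
  rw [e2] at hD
  rw [e1, e2]
  rw [hM] at hE ⊢
  have hr3 : (3 : ℝ) ≤ r := by exact_mod_cast hr
  have hn3 : 3 * (r : ℝ) + 1 ≤ n := by exact_mod_cast hn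
  have hkr : ∀ i, (1 : ℝ) ≤ k i := fun i => by exact_mod_cast hk i
  set K : ℝ := ∑ j, (k j : ℝ) with hK
  have hKr : (r : ℝ) ≤ K := by
    have : ∑ _j : Fin r, (1 : ℝ) ≤ ∑ j, (k j : ℝ) := Finset.sum_le_sum fun j _ => hkr j
    simpa using this
  have hKi : ∀ i, 0 ≤ K - k i := fun i => by
    have : (k i : ℝ) ≤ K := by
      rw [hK]
      exact Finset.single_le_sum (f := fun j => (k j : ℝ)) (fun j _ => by positivity) (Finset.mem_univ i)
    linarith
  have hK0 : 0 < K := by linarith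
  have hN13 : (13 : ℝ) ≤ (n : ℝ) + r := by linarith
  have hN2 : (0 : ℝ) < ((n : ℝ) + r) ^ 2 := by positivity
  obtain ⟨θ, hθ⟩ : ∃ θ : ℝ, θ = 4 / ((n : ℝ) + r) ^ 2 := ⟨_, rfl⟩
  have hθN : θ * ((n : ℝ) + r) ^ 2 = 4 := by
    rw [hθ]
    field_simp
  have hθ0 : 0 ≤ θ := by rw [hθ]; positivity
  have hθ1 : θ ≤ 1 / 21 := by
    rw [hθ, div_le_div_iff₀ hN2 (by norm_num)]
    nlinarith
  have hKMp : ∀ m : ℕ, (0 : ℝ) < K ^ m := fun m => by positivity
  have hD0 : ∑ i, (K - k i) ^ M ≤ θ * K ^ M := by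
    have h1 : ((n : ℝ) + r) ^ 2 * ∑ i, (K - k i) ^ M ≤ ((n : ℝ) + r) ^ 2 * (θ * K ^ M) := by
      have : ((n : ℝ) + r) ^ 2 * (θ * K ^ M) = (θ * ((n : ℝ) + r) ^ 2) * K ^ M := by ring
      rw [this, hθN]
      exact hD
    exact le_of_mul_le_mul_left h1 hN2
  have hD1 : ∑ i, (K - k i) ^ (M + 1) ≤ θ * K ^ (M + 1) := by
    have h1 : ∑ i, (K - k i) ^ (M + 1) ≤ ∑ i, (K - k i) ^ M * K := by
      refine Finset.sum_le_sum fun i _ => ?_
      rw [pow_succ]
      exact mul_le_mul_of_nonneg_left (by linarith [hkr i]) (pow_nonneg (hKi i) M)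
    rw [← Finset.sum_mul] at h1
    rw [pow_succ]
    have h2 := mul_le_mul_of_nonneg_right hD0 hK0.le
    linarith
  have hM1 : 1 ≤ M := by omega
  have t0 := bu r M k θ (by omega) hk hθ0 hθ1 hD0
  have t1 := bu r (M + 1) k θ (by omega) hk hθ0 hθ1 hD1
  have s1 := (hAU r (M + 1) k (by omega) (by omega)).1
  have s2 := (hAU r (M + 2) k (by omega) (by omega)).2
  have s3 := (hAU r M k (by omega) hM1).2
  have w := hWR r (M + 1) k (by omega) hk (by omega)
  rw [← hK] at t0 t1 s1 s2 s3 w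
  have hMr : (M : ℝ) + 2 = n + r := by exact_mod_cast hM.symm
  have e3 : ((M + 1 : ℕ) : ℝ) = (n : ℝ) + r - 1 := by push_cast; linarith
  rw [e3] at w
  have e4' : ((n : ℝ) + r - 1 + 1 - r) = n := by ring
  rw [e4'] at w
  have p1 : K ^ (M + 1) = K * K ^ M := by rw [pow_succ]; ring
  have p2 : K ^ (M + 2) = K ^ 2 * K ^ M := by rw [pow_add]; ring
  have hKM := hKMp M
  rw [p1] at t1 s1 hD1
  rw [p2] at s2
  have s1' : (1 - θ) * (K * K ^ M) ≤ ak k (M + 1) := by linarith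
  have w' : wt k (M + 1) * (((n : ℝ) + r - 1) * K) ≤ wt k (M + 2) * (n * r) := w
  push_cast
  generalize wt k (M + 1) = w1 at w' ⊢
  generalize wt k (M + 2) = w0 at w' hE ⊢
  generalize ak k (M + 1) = a1 at s1' ⊢
  generalize ak k (M + 2) = a0 at s2 hE ⊢
  generalize ak k M = a2 at s3 ⊢
  generalize bk k (M + 1) = b1 at t1 ⊢
  generalize bk k M = b2 at t0 ⊢
  generalize K ^ M = P at t0 t1 s1' s2 s3 hKM
  clear w s1 hD hD0 hD1 hKMp
  clear_value C s K
  set x : ℝ := (n : ℝ) with hx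
  set R : ℝ := (r : ℝ) with hR
  have hA : (0 : ℝ) < x + R - 1 := by linarith
  have hNp : (0 : ℝ) < x + R := by linarith
  have hx0 : 0 < x := by linarith
  have hR0 : 0 < R := by linarith
  have hE0 : 0 ≤ s * w0 - C * a0 := by linarith
  have hc0 : (0 : ℝ) < c := by linarith
  -- the bracket
  set A : ℝ := (x + R + 1 + 4 * R) * a1 - (x + R + 1 - 4 * R) * b1 with hAd
  set Br : ℝ := 4 * c * (s * w0 - C * a0) + (x + R) * C * A - 4 * (x + R) * s * w1 with hBr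
  have k1 : s * w1 * ((x + R - 1) * K) ≤ (s * w0 - C * a0 + C * (K ^ 2 * P)) * (x * R) := by
    have h1 := mul_le_mul_of_nonneg_left w' hs0
    have h2 : C * a0 ≤ C * (K ^ 2 * P) := mul_le_mul_of_nonneg_left s2 hC0.le
    have h3 : s * w0 * (x * R) ≤ (s * w0 - C * a0 + C * (K ^ 2 * P)) * (x * R) :=
      mul_le_mul_of_nonneg_right (by linarith) (by positivity)
    linarith
  have k2 : 0 ≤ (s * w0 - C * a0) * (4 * c * (x + R - 1) * K - 4 * (x + R) * (x * R)) := by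
    apply mul_nonneg hE0
    have h1 : (x + R) * ((x + R - 1) * R) ≤ c * ((x + R - 1) * K) :=
      mul_le_mul (by linarith) (mul_le_mul_of_nonneg_left hKr hA.le) (by positivity) hc0.le
    have h2 : (x + R) * (x * R) ≤ (x + R) * ((x + R - 1) * R) := by
      apply mul_le_mul_of_nonneg_left _ hNp.le
      apply mul_le_mul_of_nonneg_right _ hR0.le
      linarith
    linarith
  have k3 : (8 * R - 41 / 20 * θ * (x + R + 1)) * (K * P) ≤ A := by
    have h1 := mul_le_mul_of_nonneg_left s1' (by linarith : (0 : ℝ) ≤ x + R + 1 + 4 * R)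
    have h2 := mul_le_mul_of_nonneg_left t1 (by linarith : (0 : ℝ) ≤ x + R + 1 - 4 * R)
    have h3 : 0 ≤ θ * R * (K * P) := by positivity
    rw [hAd]
    nlinarith
  have k4 : (x + R) * C * (K * P) * ((x + R - 1) * (8 * R - 41 / 20 * θ * (x + R + 1)) - 4 * x * R) * K ≤
      (x + R - 1) * Br * K := by
    have h1 := mul_le_mul_of_nonneg_left k3 (by positivity : (0 : ℝ) ≤ (x + R - 1) * ((x + R) * C) * K)
    have h2 := mul_le_mul_of_nonneg_left k1 (by positivity : (0 : ℝ) ≤ 4 * (x + R))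
    rw [hBr]
    linarith
  have k5 : (x + R) * C * (K * P) * ((x + R - 1) * (8 * R - 41 / 20 * θ * (x + R + 1)) - 4 * x * R) ≤ (x + R - 1) * Br :=
    le_of_mul_le_mul_right k4 hK0
  set G : ℝ := (x + R - 1) * (8 * R - 41 / 20 * θ * (x + R + 1)) - 4 * x * R with hG
  have hfin := fin x R hr3 hn3
  have hGN : (x + R) ^ 2 * G = (x + R - 1) * (8 * R * (x + R) ^ 2 - 41 / 5 * (x + R + 1)) - 4 * x * R * (x + R) ^ 2 := by
    have : (x + R) ^ 2 * G = (x + R - 1) * (8 * R * (x + R) ^ 2 - 41 / 20 * (θ * (x + R) ^ 2) * (x + R + 1)) -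
        4 * x * R * (x + R) ^ 2 := by rw [hG]; ring
    rw [this, hθN]
    ring
  have hfin2 : 2 * R * (x + R - 1) ^ 2 * (2 + 21 / 20 * θ) < (x + R) * G := by
    have h1 : (x + R) ^ 2 * (2 * R * (x + R - 1) ^ 2 * (2 + 21 / 20 * θ)) =
        2 * R * (x + R - 1) ^ 2 * (2 * (x + R) ^ 2 + 21 / 5) := by
      have : (x + R) ^ 2 * (2 * R * (x + R - 1) ^ 2 * (2 + 21 / 20 * θ)) =
          2 * R * (x + R - 1) ^ 2 * (2 * (x + R) ^ 2 + 21 / 20 * (θ * (x + R) ^ 2)) := by ring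
      rw [this, hθN]
      ring
    have h2 : (x + R) ^ 2 * ((x + R) * G) = (x + R) * ((x + R - 1) * (8 * R * (x + R) ^ 2 - 41 / 5 * (x + R + 1)) -
        4 * x * R * (x + R) ^ 2) := by
      rw [← hGN]
      ring
    have h3 : (x + R) ^ 2 * (2 * R * (x + R - 1) ^ 2 * (2 + 21 / 20 * θ)) < (x + R) ^ 2 * ((x + R) * G) := by
      rw [h1, h2]
      exact hfin
    exact lt_of_mul_lt_mul_left h3 hN2.le
  have hGpos : 0 < G := by
    have h1 : 0 ≤ 2 * R * (x + R - 1) ^ 2 * (2 + 21 / 20 * θ) := by positivity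
    have h2 : 0 < (x + R) * G := lt_of_le_of_lt h1 hfin2
    exact (mul_pos_iff_of_pos_left hNp).1 h2
  -- conclusion
  have k6 : (x + R - 1) * ((x + R) * (x + R - 1) * (4 * R) ^ 2 * C * (a2 + b2)) < (x + R - 1) * (4 * c * Br) := by
    have hab : a2 + b2 ≤ (2 + 21 / 20 * θ) * P := by linarith
    calc (x + R - 1) * ((x + R) * (x + R - 1) * (4 * R) ^ 2 * C * (a2 + b2))
        ≤ (x + R - 1) * ((x + R) * (x + R - 1) * (4 * R) ^ 2 * C * ((2 + 21 / 20 * θ) * P)) := by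
          apply mul_le_mul_of_nonneg_left _ hA.le
          exact mul_le_mul_of_nonneg_left hab (by positivity)
      _ = 8 * R * (C * (x + R) * P) * (2 * R * (x + R - 1) ^ 2 * (2 + 21 / 20 * θ)) := by ring
      _ < 8 * R * (C * (x + R) * P) * ((x + R) * G) := by
          exact mul_lt_mul_of_pos_left hfin2 (by positivity)
      _ ≤ 4 * (2 * (x + R)) * ((x + R) * C * (K * P) * G) := by
          have h5 : 0 ≤ 8 * (C * (x + R) * P) * ((x + R) * G) := by positivity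
          have h6 := mul_le_mul_of_nonneg_left hKr h5
          linarith
      _ ≤ 4 * (2 * (x + R)) * ((x + R - 1) * Br) := mul_le_mul_of_nonneg_left k5 (by positivity)
      _ ≤ 4 * c * ((x + R - 1) * Br) := by
          have h8 : 0 ≤ (x + R - 1) * Br := le_trans (by positivity) k5
          exact mul_le_mul_of_nonneg_right (by linarith) h8
      _ = (x + R - 1) * (4 * c * Br) := by ring
  exact lt_of_mul_lt_mul_left k6 hA.le

end Pool.Agent.Helper70.EH.N5
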