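import Pool.Agent.Helper70.EH.Goals4
import Pool.Agent.Helper17.EQ.N1
import Pool.Agent.Helper96.EH.CK

/-!
# EH-R1: one diagram, `c ≥ 2 N`
-/

set_option autoImplicit false

namespace Pool.Agent.Helper70.EH.R1

open Pool.Agent.Helper70.EQ Pool.Agent.Helper70.EH Pool.Agent.Helper17.EQ.N1 Pool.Agent.Helper96.EH.CK

theorem t (n : ℕ) (k : Fin 1 → ℕ) (c : ℝ) (hn : 3 ≤ n) (hk : ∀ i, 1 ≤ k i) (hc : 2 * ((n : ℝ) + 1) ≤ c) :
    ∃ t, t < n + 1 ∧ NumT n 1 t k c := by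
  obtain ⟨κ, hκ⟩ : ∃ κ, κ = k 0 := ⟨_, rfl⟩
  have hk' : ∀ i, k i = κ := fun i => by rw [hκ, Subsingleton.elim i 0]
  have hκ1 : (1 : ℝ) ≤ κ := by
    rw [hκ]
    exact_mod_cast hk 0
  have hn' : (3 : ℝ) ≤ n := by exact_mod_cast hn
  have run : ∀ t : ℕ, (n : ℝ) * (t : ℝ) ^ 2 < 4 * c * ((t : ℝ) - 2) → NumT n 1 t k c := by
    intro t ht
    unfold NumT
    have hw : ∀ M, 1 ≤ M → wt k M = (κ : ℝ) ^ M := by
      intro M hM
      rw [wt_eq 1 κ k hk' M le_rfl hM]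
      simp
    have ha : ∀ M, 1 ≤ M → ak k M = (κ : ℝ) ^ M := by
      intro M hM
      rw [ak_eq 1 κ k hk' M hM, s1 M (by omega), mul_one]
    have hb : ∀ M, 1 ≤ M → bk k M = (κ : ℝ) ^ M := by
      intro M hM
      rw [bk_eq 1 κ k hk' M hM, t1 M (by omega), mul_one]
    rw [hw (n + 1) (by omega), ha (n + 1) (by omega), hw (n + 1 - 1) (by omega), ha (n + 1 - 1) (by omega),
      hb (n + 1 - 1) (by omega), ha (n + 1 - 2) (by omega), hb (n + 1 - 2) (by omega)]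
    obtain ⟨m, rfl⟩ : ∃ m, n = m + 1 := ⟨n - 1, by omega⟩
    have e1 : m + 1 + 1 - 1 = m + 1 := by omega
    have e2 : m + 1 + 1 - 2 = m := by omega
    rw [e1, e2, Nat.choose_self, Nat.stirlingSecond_one_right]
    have hP : (0 : ℝ) < (κ : ℝ) ^ m := by positivity
    have p1 : (κ : ℝ) ^ (m + 1) = (κ : ℝ) ^ m * κ := pow_succ _ _
    rw [p1]
    push_cast at ht ⊢
    norm_num
    have hm : (2 : ℝ) ≤ m := by
      push_cast at hn'
      linarith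
    have h1 : ((m : ℝ) + 1) * (t : ℝ) ^ 2 * ((κ : ℝ) ^ m * 1) < 4 * c * ((t : ℝ) - 2) * ((κ : ℝ) ^ m * κ) := by
      have h2 : ((m : ℝ) + 1) * (t : ℝ) ^ 2 * ((κ : ℝ) ^ m * 1) < 4 * c * ((t : ℝ) - 2) * ((κ : ℝ) ^ m * 1) :=
        mul_lt_mul_of_pos_right ht (by linarith)
      have h0 : 0 ≤ ((m : ℝ) + 1) * (t : ℝ) ^ 2 := by positivity
      have h3 : 4 * c * ((t : ℝ) - 2) * ((κ : ℝ) ^ m * 1) ≤ 4 * c * ((t : ℝ) - 2) * ((κ : ℝ) ^ m * κ) :=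
        mul_le_mul_of_nonneg_left (mul_le_mul_of_nonneg_left hκ1 hP.le) (by linarith)
      linarith
    have h4 := mul_lt_mul_of_pos_left h1 (by positivity : (0 : ℝ) < 2 * ((m : ℝ) + 2))
    nlinarith [h4]
  rcases Nat.lt_or_ge n 4 with h4 | h4
  · have h3 : n = 3 := by omega
    subst h3
    refine ⟨3, by norm_num, run 3 ?_⟩
    push_cast at hc ⊢
    linarith
  · refine ⟨4, by omega, run 4 ?_⟩
    push_cast
    linarith

end Pool.Agent.Helper70.EH.R1
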