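import Pool.Agent.Helper70.EH.Goals4
import Pool.Agent.Helper70.EH.R2
import Pool.Agent.Helper14.EH.EX

/-!
# EH-R3: two diagrams, `c ≥ 2 N`
-/

set_option autoImplicit false

namespace Pool.Agent.Helper70.EH.R3

open Pool.Agent.Helper70.EQ Pool.Agent.Helper70.EH Pool.Agent.Helper14.EH.EX Pool.Agent.Helper17.EQ.N1 Pool.Agent.Helper70.EH.R2

/-- The real inequality. -/
theorem star (N : ℕ) (hN : 5 ≤ N) (κ σ : ℝ) (hκ : 0 ≤ κ) (hce : ∀ j, 1 ≤ j → j + 1 ≤ N → 0 ≤ ce N j)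
    (hco : ∀ j, 1 ≤ j → j + 1 ≤ N → 0 ≤ κ * ce N j +
      ((N : ℝ) - 1) * (σ * ((N - 1).choose j : ℝ) * 2 ^ (N - 1 - j) - ((N : ℝ) + 1) / 2 * ((N - 1).choose j : ℝ)) -
      (2 ^ N - 2) * ((N - 1).choose (j + 1) : ℝ))
    (h0 : 0 < ((N : ℝ) - 1) * (σ * 2 ^ (N - 1) - ((N : ℝ) + 1)) - (2 ^ N - 2) * ((N : ℝ) - 2))
    (u l : ℝ) (hl : 1 ≤ l) (hul : l ≤ u) :
    0 ≤ ((2 : ℝ) ^ N - 2) * (∑ i ∈ Finset.Ico 1 N, u ^ i * l ^ (N - i)) - ((N : ℝ) - 1) * ((u + l) ^ N - u ^ N - l ^ N) ∧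
    0 < κ * (((2 : ℝ) ^ N - 2) * (∑ i ∈ Finset.Ico 1 N, u ^ i * l ^ (N - i)) - ((N : ℝ) - 1) * ((u + l) ^ N - u ^ N - l ^ N)) +
      ((N : ℝ) - 1) * (σ * (u + l) ^ (N - 1) - ((N : ℝ) + 1) / 2 * (u ^ (N - 1) + l ^ (N - 1))) -
      (2 ^ N - 2) * (∑ i ∈ Finset.Ico 1 (N - 1), u ^ i * l ^ (N - 1 - i)) := by
  have hl0 : 0 < l := by linarith
  obtain ⟨y, hy⟩ : ∃ y, y = u / l - 1 := ⟨_, rfl⟩
  have hu : u = l * (1 + y) := by
    rw [hy]
    field_simp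
    ring
  have hy0 : 0 ≤ y := by
    rw [hy, sub_nonneg, le_div_iff₀ hl0]
    linarith
  have hul2 : u + l = l * (2 + y) := by rw [hu]; ring
  have hsum : ∀ M : ℕ, ∑ i ∈ Finset.Ico 1 M, u ^ i * l ^ (M - i) = l ^ M * ∑ i ∈ Finset.Ico 1 M, (1 + y) ^ i := by
    intro M
    rw [Finset.mul_sum]
    refine Finset.sum_congr rfl fun i hi => ?_
    rw [Finset.mem_Ico] at hi
    rw [hu, mul_pow]
    have : l ^ M = l ^ i * l ^ (M - i) := by
      rw [← pow_add]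
      congr 1
      omega
    rw [this]
    ring
  have hN' : (5 : ℝ) ≤ N := by exact_mod_cast hN
  set E1 : ℝ := ∑ j ∈ Finset.Ico 1 N, ce N j * y ^ j with hE1
  have hE10 : 0 ≤ E1 := Finset.sum_nonneg fun j hj => by
    rw [Finset.mem_Ico] at hj
    exact mul_nonneg (hce j hj.1 (by omega)) (pow_nonneg hy0 _)
  have x1 : ((2 : ℝ) ^ N - 2) * (∑ i ∈ Finset.Ico 1 N, (1 + y) ^ i) - ((N : ℝ) - 1) * ((2 + y) ^ N - (1 + y) ^ N - 1) = E1 :=
    (Pool.Agent.Helper14.EH.EX.t N y (by omega)).1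
  have eE : ((2 : ℝ) ^ N - 2) * (∑ i ∈ Finset.Ico 1 N, u ^ i * l ^ (N - i)) - ((N : ℝ) - 1) * ((u + l) ^ N - u ^ N - l ^ N) =
      l ^ N * E1 := by
    rw [hsum, ← x1, hul2, mul_pow, hu, mul_pow]
    ring
  set R1 : ℝ := ((N : ℝ) - 1) * (σ * (2 + y) ^ (N - 1) - ((N : ℝ) + 1) / 2 * ((1 + y) ^ (N - 1) + 1)) -
      (2 ^ N - 2) * (∑ i ∈ Finset.Ico 1 (N - 1), (1 + y) ^ i) with hR1
  have eR : ((N : ℝ) - 1) * (σ * (u + l) ^ (N - 1) - ((N : ℝ) + 1) / 2 * (u ^ (N - 1) + l ^ (N - 1))) -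
      (2 ^ N - 2) * (∑ i ∈ Finset.Ico 1 (N - 1), u ^ i * l ^ (N - 1 - i)) = l ^ (N - 1) * R1 := by
    rw [hsum, hul2, mul_pow, hu, mul_pow, hR1]
    ring
  have hpos : 0 < κ * E1 + R1 := by
    have b1 := bin (by omega : (N - 1) + 1 ≤ N) 2 y
    have b2 := bin (by omega : (N - 1) + 1 ≤ N) 1 y
    have b3 := geo' (by omega : 1 ≤ N - 1) (by omega : N - 1 ≤ N) y
    have hc : ((N - 1 : ℕ) : ℝ) = (N : ℝ) - 1 := by
      rw [Nat.cast_sub (by omega)]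
      simp
    rw [hc] at b3
    have h4 : ∑ j ∈ Finset.Ico 1 N, (κ * ce N j +
        ((N : ℝ) - 1) * (σ * ((N - 1).choose j : ℝ) * 2 ^ (N - 1 - j) - ((N : ℝ) + 1) / 2 * ((N - 1).choose j : ℝ)) -
        (2 ^ N - 2) * ((N - 1).choose (j + 1) : ℝ)) * y ^ j =
        κ * (∑ j ∈ Finset.Ico 1 N, ce N j * y ^ j) +
        ((N : ℝ) - 1) * σ * (∑ j ∈ Finset.Ico 1 N, ((N - 1).choose j : ℝ) * 2 ^ (N - 1 - j) * y ^ j) -
        ((N : ℝ) - 1) * (((N : ℝ) + 1) / 2) * (∑ j ∈ Finset.Ico 1 N, ((N - 1).choose j : ℝ) * 1 ^ (N - 1 - j) * y ^ j) -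
        (2 ^ N - 2) * (∑ j ∈ Finset.Ico 1 N, ((N - 1).choose (j + 1) : ℝ) * y ^ j) := by
      rw [Finset.mul_sum, Finset.mul_sum, Finset.mul_sum, Finset.mul_sum, ← Finset.sum_add_distrib, ← Finset.sum_sub_distrib,
        ← Finset.sum_sub_distrib]
      refine Finset.sum_congr rfl fun j _ => ?_
      rw [one_pow]
      ring
    have h5 : 0 ≤ ∑ j ∈ Finset.Ico 1 N, (κ * ce N j +
        ((N : ℝ) - 1) * (σ * ((N - 1).choose j : ℝ) * 2 ^ (N - 1 - j) - ((N : ℝ) + 1) / 2 * ((N - 1).choose j : ℝ)) -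
        (2 ^ N - 2) * ((N - 1).choose (j + 1) : ℝ)) * y ^ j := Finset.sum_nonneg fun j hj => by
      rw [Finset.mem_Ico] at hj
      exact mul_nonneg (hco j hj.1 (by omega)) (pow_nonneg hy0 _)
    rw [h4] at h5
    rw [hR1, hE1, b1, b2, b3, one_pow]
    nlinarith [h5, h0]
  refine ⟨by rw [eE]; positivity, ?_⟩
  have e3 : κ * (l ^ N * E1) + l ^ (N - 1) * R1 = l ^ (N - 1) * (κ * E1 + R1) + κ * E1 * (l ^ (N - 1) * (l - 1)) := by
    have p1 : l ^ N = l ^ (N - 1) * l := by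
      rw [← pow_succ]
      congr 1
      omega
    rw [p1]
    ring
  have e4 : 0 < l ^ (N - 1) * (κ * E1 + R1) := by positivity
  have e5 : 0 ≤ κ * E1 * (l ^ (N - 1) * (l - 1)) := by
    have : 0 ≤ l - 1 := by linarith
    positivity
  rw [eE]
  have e6 := eR
  linarith

theorem numT_of (hSR : G_SR) (n t : ℕ) (k : Fin 2 → ℕ) (c κ σ : ℝ) (hk : ∀ i, 1 ≤ k i) (hn : 3 ≤ n) (hc0 : 0 < c)
    (hκ : κ * ((n : ℝ) + 2) ≤ c) (hσ : ((n : ℝ) + 1) * (t : ℝ) ^ 2 ≤ 16 * c * ((t : ℝ) / 2 - σ))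
    (h1 : 0 ≤ ((2 : ℝ) ^ (n + 2) - 2) * wt k (n + 2) - ((n : ℝ) + 1) * ak k (n + 2))
    (h2 : 0 < κ * (((2 : ℝ) ^ (n + 2) - 2) * wt k (n + 2) - ((n : ℝ) + 1) * ak k (n + 2)) +
      ((n : ℝ) + 1) * (σ * ((k 0 : ℝ) + k 1) ^ (n + 1) - ((n : ℝ) + 3) / 2 * ((k 0 : ℝ) ^ (n + 1) + (k 1 : ℝ) ^ (n + 1))) -
      (2 ^ (n + 2) - 2) * wt k (n + 1)) :
    NumT n 2 t k c := by
  have hs : (Nat.factorial 2 : ℝ) * (Nat.stirlingSecond (n + 2) 2 : ℝ) = 2 ^ (n + 2) - 2 := by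
    rw [← (hSR 2 (n + 2)).1, s2 _ (by omega)]
  have hC : ((n + 2 - 1).choose n : ℝ) = (n : ℝ) + 1 := by
    rw [show n + 2 - 1 = n + 1 by omega, Nat.choose_succ_self_right]
    push_cast
    ring
  unfold NumT
  rw [hs, hC, show n + 2 - 2 = n by omega, show n + 2 - 1 = n + 1 by omega]
  push_cast
  refine ⟨by linarith, ?_⟩
  have ha1 := ak2 k (n + 1)
  have hb1 := bk2 k (n + 1)
  have ha2 := ak2 k n
  have hb2 := bk2 k n
  have hk0 : (1 : ℝ) ≤ k 0 := by exact_mod_cast hk 0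
  have hk1 : (1 : ℝ) ≤ k 1 := by exact_mod_cast hk 1
  have hn0 : (3 : ℝ) ≤ n := by exact_mod_cast hn
  set K : ℝ := (k 0 : ℝ) + k 1 with hK
  set S : ℝ := (k 0 : ℝ) ^ (n + 1) + (k 1 : ℝ) ^ (n + 1) with hS
  set E := ((2 : ℝ) ^ (n + 2) - 2) * wt k (n + 2) - ((n : ℝ) + 1) * ak k (n + 2) with hE
  set w1 := ((2 : ℝ) ^ (n + 2) - 2) * wt k (n + 1) with hw1
  have hK2 : 2 ≤ K := by linarith
  have hPn : 0 < K ^ n := by positivity
  have e1 : ak k n + bk k n = 2 * K ^ n := by rw [ha2, hb2]; ring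
  have e2 : ((n : ℝ) + 2 + 1 + t) * ak k (n + 1) - ((n : ℝ) + 2 + 1 - t) * bk k (n + 1) =
      2 * t * K ^ (n + 1) - 2 * ((n : ℝ) + 3) * S := by rw [ha1, hb1, hS]; ring
  have hσ0 : 0 ≤ (t : ℝ) / 2 - σ := by
    by_contra hcon
    have h3 : 16 * c * ((t : ℝ) / 2 - σ) < 0 := mul_neg_of_pos_of_neg (by positivity) (not_le.1 hcon)
    have h4 : 0 ≤ ((n : ℝ) + 1) * (t : ℝ) ^ 2 := by positivity
    linarith
  have g1 : κ * ((n : ℝ) + 2) * E ≤ c * E := mul_le_mul_of_nonneg_right hκ h1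
  have g2 : ((t : ℝ) / 2 - σ) * (2 * K ^ n) ≤ ((t : ℝ) / 2 - σ) * K ^ (n + 1) := by
    refine mul_le_mul_of_nonneg_left ?_ hσ0
    rw [pow_succ]
    nlinarith
  have g3 : ((n : ℝ) + 1) * (t : ℝ) ^ 2 * (2 * K ^ n) ≤ 16 * c * ((t : ℝ) / 2 - σ) * (2 * K ^ n) :=
    mul_le_mul_of_nonneg_right hσ (by positivity)
  have g4 : 0 < κ * E + ((n : ℝ) + 1) * (σ * K ^ (n + 1) - ((n : ℝ) + 3) / 2 * S) - w1 := h2
  have g5 : 0 < 16 * c * ((n : ℝ) + 2) * (κ * E + ((n : ℝ) + 1) * (σ * K ^ (n + 1) - ((n : ℝ) + 3) / 2 * S) - w1) := by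
    positivity
  have g6 : 16 * c * ((n : ℝ) + 2) * (((n : ℝ) + 1) * (((t : ℝ) / 2 - σ) * (2 * K ^ n))) ≤
      16 * c * ((n : ℝ) + 2) * (((n : ℝ) + 1) * (((t : ℝ) / 2 - σ) * K ^ (n + 1))) :=
    mul_le_mul_of_nonneg_left (mul_le_mul_of_nonneg_left g2 (by positivity)) (by positivity)
  have g7 : ((n : ℝ) + 2) * ((n : ℝ) + 1) * (((n : ℝ) + 1) * (t : ℝ) ^ 2 * (2 * K ^ n)) ≤
      ((n : ℝ) + 2) * ((n : ℝ) + 1) * (16 * c * ((t : ℝ) / 2 - σ) * (2 * K ^ n)) :=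
    mul_le_mul_of_nonneg_left g3 (by positivity)
  have g8 : 16 * c * (κ * ((n : ℝ) + 2) * E) ≤ 16 * c * (c * E) := mul_le_mul_of_nonneg_left g1 (by positivity)
  rw [e1, e2]
  have e3 : 4 * ((n : ℝ) + 2) * ((2 : ℝ) ^ (n + 2) - 2) * wt k (n + 1) = 4 * ((n : ℝ) + 2) * w1 := by rw [hw1]; ring
  rw [e3]
  linarith

theorem t (hC2 : G_C2) (hCJ : G_CJ) (hSR : G_SR) : G_R3 := by
  intro n k c hn hk hc hc3
  have key : ∀ k : Fin 2 → ℕ, (∀ i, 1 ≤ k i) → k 1 ≤ k 0 → ∃ t, t < n + 2 ∧ NumT n 2 t k c := by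
    intro k hk hle
    have hn' : (3 : ℝ) ≤ n := by exact_mod_cast hn
    have hce : ∀ j, 1 ≤ j → j + 1 ≤ n + 2 → 0 ≤ ce (n + 2) j := fun j h1 h2 => (hCJ (n + 2) j (by omega) h1 h2).1
    have hc0 : 0 < c := by linarith
    have run : ∀ (t : ℕ) (κ σ : ℝ), 0 ≤ κ → κ * ((n : ℝ) + 2) ≤ c → ((n : ℝ) + 1) * (t : ℝ) ^ 2 ≤ 16 * c * ((t : ℝ) / 2 - σ) →
        (∀ j, 1 ≤ j → j + 1 ≤ n + 2 → 0 ≤ κ * ce (n + 2) j +
          (((n + 2 : ℕ) : ℝ) - 1) * (σ * ((n + 2 - 1).choose j : ℝ) * 2 ^ (n + 2 - 1 - j) -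
            (((n + 2 : ℕ) : ℝ) + 1) / 2 * ((n + 2 - 1).choose j : ℝ)) -
          (2 ^ (n + 2) - 2) * ((n + 2 - 1).choose (j + 1) : ℝ)) →
        (0 < (((n + 2 : ℕ) : ℝ) - 1) * (σ * 2 ^ (n + 2 - 1) - (((n + 2 : ℕ) : ℝ) + 1)) - (2 ^ (n + 2) - 2) * (((n + 2 : ℕ) : ℝ) - 2)) →
        NumT n 2 t k c := by
      intro t κ σ hκ0 hκ hσ hco h0
      have h := star (n + 2) (by omega) κ σ hκ0 hce hco h0 (k 0) (k 1) (by exact_mod_cast hk 1) (by exact_mod_cast hle)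
      rw [show n + 2 - 1 = n + 1 by omega] at h
      push_cast at h
      have e1 : (n : ℝ) + 2 - 1 = n + 1 := by ring
      have e2 : (n : ℝ) + 2 + 1 = n + 3 := by ring
      rw [e1, e2] at h
      refine numT_of hSR n t k c κ σ hk hn hc0 hκ hσ ?_ ?_
      · rw [ak2, wt2]
        exact h.1
      · rw [ak2, wt2, wt2]
        exact h.2
    rcases Nat.lt_or_ge n 5 with h5 | h5
    · rcases (by omega : n = 3 ∨ n = 4) with h | h
      · subst h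
        have hc20 := hc3 rfl
        refine ⟨4, by norm_num, run 4 4 (9 / 5) (by norm_num) (by push_cast; linarith) (by push_cast; linarith) ?_ (by norm_num)⟩
        intro j h1 h2
        have h3 := (hC2 5 j (by norm_num) h1 h2).1 (by norm_num)
        rw [if_pos rfl] at h3
        exact h3
      · subst h
        refine ⟨5, by norm_num, run 5 2 (9 / 5) (by norm_num) (by push_cast at hc ⊢; linarith) (by push_cast at hc ⊢; linarith) ?_ (by norm_num)⟩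
        intro j h1 h2
        have h3 := (hC2 6 j (by norm_num) h1 h2).1 (by norm_num)
        rw [if_neg (by norm_num)] at h3
        exact h3
    · have hco : ∀ j, 1 ≤ j → j + 1 ≤ n + 2 → 0 ≤ 2 * ce (n + 2) j +
          (((n + 2 : ℕ) : ℝ) - 1) * (2 * ((n + 2 - 1).choose j : ℝ) * 2 ^ (n + 2 - 1 - j) -
            (((n + 2 : ℕ) : ℝ) + 1) / 2 * ((n + 2 - 1).choose j : ℝ)) -
          (2 ^ (n + 2) - 2) * ((n + 2 - 1).choose (j + 1) : ℝ) := fun j h1 h2 =>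
        (hC2 (n + 2) j (by omega) h1 h2).2 (by omega)
      have h0 : 0 < (((n + 2 : ℕ) : ℝ) - 1) * (2 * 2 ^ (n + 2 - 1) - (((n + 2 : ℕ) : ℝ) + 1)) -
          (2 ^ (n + 2) - 2) * (((n + 2 : ℕ) : ℝ) - 2) := by
        have hp : ∀ m : ℕ, 5 ≤ m → ((m : ℝ) + 2) ^ 2 ≤ 2 ^ (m + 2) := by
          intro m hm
          induction m, hm using Nat.le_induction with
          | base => norm_num
          | succ m hm ih =>
            have hm' : (5 : ℝ) ≤ m := by exact_mod_cast hm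
            have e : (2 : ℝ) ^ (m + 1 + 2) = 2 * 2 ^ (m + 2) := by ring
            rw [e]
            push_cast
            nlinarith
        have hp' := hp n h5
        have e : (2 : ℝ) * 2 ^ (n + 2 - 1) = 2 ^ (n + 2) := by
          rw [show n + 2 = (n + 2 - 1) + 1 by omega, pow_succ]
          ring_nf
          simp
        rw [e]
        push_cast
        nlinarith
      have hn5 : (5 : ℝ) ≤ n := by exact_mod_cast h5
      rcases Nat.lt_or_ge n 7 with h7 | h7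
      · rcases (by omega : n = 5 ∨ n = 6) with h | h
        · refine ⟨6, by omega, run 6 2 2 (by norm_num) hc ?_ hco h0⟩
          subst h
          push_cast at hc ⊢
          linarith
        · refine ⟨7, by omega, run 7 2 2 (by norm_num) hc ?_ hco h0⟩
          subst h
          push_cast at hc ⊢
          linarith
      · refine ⟨8, by omega, run 8 2 2 (by norm_num) hc ?_ hco h0⟩
        push_cast
        linarith
  rcases le_total (k 1) (k 0) with h | h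
  · exact key k hk h
  · obtain ⟨t, ht, h2⟩ := key (fun i => k (Fin.rev i)) (fun i => hk _) h
    have ea : ∀ M, ak (fun i => k (Fin.rev i)) M = ak k M := by
      intro M
      rw [ak2, ak2]
      show ((k 1 : ℝ) + k 0) ^ M - (k 1 : ℝ) ^ M - (k 0 : ℝ) ^ M = _
      rw [add_comm (k 1 : ℝ)]
      ring
    have eb : ∀ M, bk (fun i => k (Fin.rev i)) M = bk k M := by
      intro M
      rw [bk2, bk2]
      show ((k 1 : ℝ) + k 0) ^ M + (k 1 : ℝ) ^ M + (k 0 : ℝ) ^ M = _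
      rw [add_comm (k 1 : ℝ)]
      ring
    have ew : ∀ M, wt (fun i => k (Fin.rev i)) M = wt k M := by
      intro M
      rw [wt2, wt2]
      show ∑ i ∈ Finset.Ico 1 M, (k 1 : ℝ) ^ i * (k 0 : ℝ) ^ (M - i) = _
      refine Finset.sum_bij' (fun i _ => M - i) (fun i _ => M - i) ?_ ?_ ?_ ?_ ?_
      · intro i hi
        rw [Finset.mem_Ico] at hi ⊢
        omega
      · intro i hi
        rw [Finset.mem_Ico] at hi ⊢
        omega
      · intro i hi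
        rw [Finset.mem_Ico] at hi
        omega
      · intro i hi
        rw [Finset.mem_Ico] at hi
        omega
      · intro i hi
        rw [Finset.mem_Ico] at hi
        have : M - (M - i) = i := by omega
        rw [this]
        ring
    refine ⟨t, ht, ?_⟩
    unfold NumT at h2 ⊢
    simp only [ea, eb, ew] at h2
    exact h2

end Pool.Agent.Helper70.EH.R3
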