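import Pool.Agent.Helper70.EH.Goals4

/-!
# Project EH (MP_20ee5e_ag), US: the upper bound with the coordinates in `S`
-/

set_option autoImplicit false

open MeasureTheory Set

namespace Pool.Agent.Helper70.EH.US

open Pool.Agent.Helper70.KN Pool.Agent.Helper70.EQ

/-- the pointwise inequality -/
theorem pointwise {N : ℕ} (S : Finset (Fin N)) (b : Fin N → Prop) [DecidablePred b] :
    (if ∀ j ∈ S, ¬ b j then (1 : ℝ) else 0) ≤ 1 - ∑ i ∈ S, (if ∀ j ∈ ({i} : Finset (Fin N)), b j then (1 : ℝ) else 0) +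
      ∑ P ∈ S.powersetCard 2, (if ∀ j ∈ P, b j then (1 : ℝ) else 0) := by
  classical
  have h1 : ∑ i ∈ S, (if ∀ j ∈ ({i} : Finset (Fin N)), b j then (1 : ℝ) else 0) = ((S.filter b).card : ℝ) := by
    rw [Finset.card_filter, Nat.cast_sum]
    refine Finset.sum_congr rfl fun i _ => ?_
    by_cases h : b i <;> simp [h]
  have h2 : ∑ P ∈ S.powersetCard 2, (if ∀ j ∈ P, b j then (1 : ℝ) else 0) = ((S.filter b).card.choose 2 : ℝ) := by
    rw [Finset.sum_boole, ← Finset.card_powersetCard]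
    congr 2
    ext P
    simp only [Finset.mem_filter, Finset.mem_powersetCard, Finset.subset_iff]
    constructor
    · rintro ⟨⟨h3, h4⟩, h5⟩
      exact ⟨fun x hx => ⟨h3 hx, h5 x hx⟩, h4⟩
    · rintro ⟨h3, h4⟩
      exact ⟨⟨fun x hx => (h3 hx).1, h4⟩, fun x hx => (h3 hx).2⟩
  rw [h1, h2]
  set k := (S.filter b).card with hk
  have h3 : (k.choose 2 : ℝ) = (k : ℝ) * (k - 1) / 2 := by
    rw [Nat.cast_choose_two]
  rw [h3]
  rcases Nat.eq_zero_or_pos k with h | h
  · rw [h]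
    split_ifs <;> norm_num
  · have h4 : ¬ ∀ j ∈ S, ¬ b j := by
      intro h5
      have h6 : (S.filter b) = ∅ := Finset.filter_eq_empty_iff.2 h5
      rw [hk, h6, Finset.card_empty] at h
      exact lt_irrefl 0 h
    rw [if_neg h4]
    have h5 : (1 : ℝ) ≤ k := by exact_mod_cast h
    rcases Nat.lt_or_ge k 2 with h6 | h6
    · have h7 : k = 1 := by omega
      rw [h7]
      norm_num
    · have h7 : (2 : ℝ) ≤ k := by exact_mod_cast h6
      nlinarith

/-- the integrated form of the pointwise inequality -/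
theorem key (N : ℕ) (S : Finset (Fin N)) (h : ℝ) (μ : Measure (Fin N → ℝ)) [IsFiniteMeasure μ] :
    μ.real {x : Fin N → ℝ | ∀ j ∈ S, ¬ x j < h} ≤
      μ.real univ - ∑ i ∈ S, μ.real {x : Fin N → ℝ | ∀ j ∈ ({i} : Finset (Fin N)), x j < h} +
        ∑ J ∈ S.powersetCard 2, μ.real {x : Fin N → ℝ | ∀ j ∈ J, x j < h} := by
  classical
  have hlt : ∀ j : Fin N, MeasurableSet {x : Fin N → ℝ | x j < h} := fun j =>
    measurableSet_lt (measurable_pi_apply j) measurable_const
  have hD : ∀ J : Finset (Fin N), MeasurableSet {x : Fin N → ℝ | ∀ j ∈ J, x j < h} := by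
    intro J
    have : {x : Fin N → ℝ | ∀ j ∈ J, x j < h} = ⋂ j ∈ J, {x : Fin N → ℝ | x j < h} := by
      ext x; simp
    rw [this]
    exact Finset.measurableSet_biInter J fun j _ => hlt j
  have hB : MeasurableSet {x : Fin N → ℝ | ∀ j ∈ S, ¬ x j < h} := by
    have : {x : Fin N → ℝ | ∀ j ∈ S, ¬ x j < h} = ⋂ j ∈ S, {x : Fin N → ℝ | x j < h}ᶜ := by
      ext x; simp
    rw [this]
    exact Finset.measurableSet_biInter _ fun j _ => (hlt j).compl
  have hint : ∀ T : Set (Fin N → ℝ), MeasurableSet T →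
      Integrable (T.indicator (fun _ => (1 : ℝ))) μ := fun T hT => (integrable_const 1).indicator hT
  have hval : ∀ T : Set (Fin N → ℝ), MeasurableSet T →
      ∫ x, T.indicator (fun _ => (1 : ℝ)) x ∂μ = μ.real T := by
    intro T hT
    rw [integral_indicator_const (1 : ℝ) hT]
    simp
  have h2 : ∑ i ∈ S, μ.real {x : Fin N → ℝ | ∀ j ∈ ({i} : Finset (Fin N)), x j < h} =
      ∫ x, ∑ i ∈ S, ({x : Fin N → ℝ | ∀ j ∈ ({i} : Finset (Fin N)), x j < h}).indicator
        (fun _ => (1 : ℝ)) x ∂μ := by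
    rw [integral_finsetSum _ (fun i _ => hint _ (hD {i}))]
    exact Finset.sum_congr rfl fun i _ => (hval _ (hD {i})).symm
  have h3 : ∑ J ∈ S.powersetCard 2, μ.real {x : Fin N → ℝ | ∀ j ∈ J, x j < h} =
      ∫ x, ∑ J ∈ S.powersetCard 2, ({x : Fin N → ℝ | ∀ j ∈ J, x j < h}).indicator (fun _ => (1 : ℝ)) x ∂μ := by
    rw [integral_finsetSum _ (fun J _ => hint _ (hD J))]
    exact Finset.sum_congr rfl fun J _ => (hval _ (hD J)).symm
  have i2 : Integrable (fun x => ∑ i ∈ S,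
      ({x : Fin N → ℝ | ∀ j ∈ ({i} : Finset (Fin N)), x j < h}).indicator (fun _ => (1 : ℝ)) x) μ :=
    integrable_finsetSum _ fun i _ => hint _ (hD {i})
  have i3 : Integrable (fun x => ∑ J ∈ S.powersetCard 2,
      ({x : Fin N → ℝ | ∀ j ∈ J, x j < h}).indicator (fun _ => (1 : ℝ)) x) μ :=
    integrable_finsetSum _ fun J _ => hint _ (hD J)
  have h4 : μ.real univ = ∫ _x, (1 : ℝ) ∂μ := by
    rw [integral_const, smul_eq_mul, mul_one]
  rw [← hval _ hB, h2, h3, h4]
  have h6 : ∀ F2 F3 : (Fin N → ℝ) → ℝ, Integrable F2 μ → Integrable F3 μ →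
      ∫ _x, (1 : ℝ) ∂μ - ∫ x, F2 x ∂μ + ∫ x, F3 x ∂μ = ∫ x, (1 - F2 x + F3 x) ∂μ := by
    intro F2 F3 j2 j3
    have e1 : Integrable (fun x => (1 : ℝ) - F2 x) μ := (integrable_const _).sub j2
    rw [integral_add e1 j3, integral_sub (integrable_const _) j2]
  rw [h6 _ _ i2 i3]
  refine integral_mono (hint _ hB) (((integrable_const _).sub i2).add i3) ?_
  intro x
  have h5 := pointwise S (fun j => x j < h)
  simpa [Set.indicator_apply] using h5

/-- **US.** -/
theorem t (hJE : S_JE) (hMF : S_MF) : G_US := by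
  classical
  intro N V hV S hS
  obtain ⟨i, hi⟩ : ∃ i, i ∉ S := by
    by_contra hcon
    push Not at hcon
    exact hS (Finset.eq_univ_iff_forall.2 hcon)
  have hcyl : cyl V ∅ = {x : Fin N → ℝ | 0 ≤ x ∧ x ∉ newton V} := by
    ext x
    have hz : zr (∅ : Finset (Fin N)) x = x := by
      funext i; simp [zr]
    simp [cyl, hz]
  obtain ⟨hm, hf, -⟩ := hMF N V hV ∅
  have hW : W V ∅ = (volume {x : Fin N → ℝ | 0 ≤ x ∧ x ∉ newton V}).toReal := by
    unfold W; rw [hcyl]
  rw [hcyl] at hm hf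
  set U : Set (Fin N → ℝ) := {x : Fin N → ℝ | 0 ≤ x ∧ x ∉ newton V} with hU
  have : IsFiniteMeasure (volume.restrict U) :=
    ⟨by rw [Measure.restrict_apply_univ]; exact lt_top_iff_ne_top.2 hf⟩
  have hk := key N S (1 / 2) (volume.restrict U)
  have hr : ∀ T : Set (Fin N → ℝ), (volume.restrict U).real T = (volume (T ∩ U)).toReal := by
    intro T
    rw [Measure.real, Measure.restrict_apply' hm]
  have hY : ∀ J : Finset (Fin N), Y V (1 / 2) J =
      (volume.restrict U).real {x : Fin N → ℝ | ∀ j ∈ J, x j < 1 / 2} := by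
    intro J
    rw [hr]
    unfold Y
    congr 2
    ext x
    simp only [part, hU, mem_ofPred_eq, mem_inter_iff]
    tauto
  have hG : (genus V : ℝ) ≤ (volume.restrict U).real {x : Fin N → ℝ | ∀ j ∈ S, ¬ x j < 1 / 2} := by
    rw [hr]
    refine (hJE N V hV i).trans (ENNReal.toReal_mono ?_ (measure_mono ?_))
    · exact ((measure_mono inter_subset_right).trans_lt (lt_top_iff_ne_top.2 hf)).ne
    · rintro x ⟨hx1, hx2, hx3⟩
      refine ⟨fun j hj => not_lt.2 (hx3 j ?_), hx1, hx2⟩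
      rintro rfl
      exact hi hj
  have hW' : W V ∅ = (volume.restrict U).real univ := by
    rw [hr, univ_inter, hW]
  simp only [hY, hW']
  exact hG.trans hk

end Pool.Agent.Helper70.EH.US
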