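import Pool.Agent.Helper70.EH.Main
import Pool.Agent.Helper70.EH.FT
import Pool.Agent.Helper70.EH.R1
import Pool.Agent.Helper70.EH.R3
import Pool.Agent.Helper70.EH.N5
import Pool.Agent.Helper70.EH.US
import Pool.Agent.Helper9.EH.UA
import Pool.Agent.Helper57.EH.UT
import Pool.Agent.Helper46.EH.PT
import Pool.Agent.Helper67.EH.C2

/-!
# Project EH (MP_20ee5e_ag): the theorem with the bound `c ≥ 2 N`
-/

open MeasureTheory Set

namespace Pool.Agent.Helper70.EH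

open Pool.Agent.Helper70.KN Pool.Agent.Helper70.EQ

theorem rUS : G_US := Pool.Agent.Helper70.EH.US.t pJE pMF
theorem rUA : G_UA := Pool.Agent.Helper9.EH.UA.t
theorem rUT : G_UT := Pool.Agent.Helper57.EH.UT.t rUS rUA qY1 pY2 qXX
theorem rPT : G_PT := Pool.Agent.Helper46.EH.PT.t qLB rUT qML
theorem rFT : G_FT := Pool.Agent.Helper70.EH.FT.t rPT rMB qXX qPO
theorem rC2 : G_C2 := Pool.Agent.Helper67.EH.C2.t
theorem rR3 : G_R3 := Pool.Agent.Helper70.EH.R3.t rC2 rCJ qSR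
theorem rN5 : G_N5 := Pool.Agent.Helper70.EH.N5.t rAU rWR rEP

theorem sum_erase_cast (r M : ℕ) (k : Fin r → ℕ) :
    ((∑ i, (∑ j ∈ Finset.univ.erase i, k j) ^ M : ℕ) : ℝ) = ∑ i, ((∑ j, (k j : ℝ)) - k i) ^ M := by
  rw [Nat.cast_sum]
  refine Finset.sum_congr rfl fun i _ => ?_
  rw [Nat.cast_pow, Nat.cast_sum, Finset.sum_erase_eq_sub (Finset.mem_univ i)]

/-- The theorem for complete intersections with homothetic Newton diagrams. -/
theorem main2 (n r : ℕ) (hn : 3 ≤ n) (hr : 1 ≤ r) (k : Fin r → ℕ) (hk : ∀ i, 1 ≤ k i)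
    (V : Finset (Fin (n + r) → ℕ)) (hV : Convenient V)
    (h0 : (0 : Fin (n + r) → ℕ) ∉ V) (c : ℕ) (hc : ∀ v ∈ V, ∀ i, v i ≠ 0 → c ≤ v i)
    (h : 2 * (n + r) ≤ c ∧ (r = 1 ∨ r = 2 ∧ (n = 3 → 20 ≤ c) ∨ 3 * r < n ∧
        (n + r) ^ 2 * ∑ i, (∑ j ∈ Finset.univ.erase i, k j) ^ (n + r - 2) ≤ 4 * (∑ j, k j) ^ (n + r - 2)) ∨
      (n + r) ^ 2 ≤ c ∧ 4 * ∑ i, (∑ j ∈ Finset.univ.erase i, k j) ^ (n + r - 2) ≤ (∑ j, k j) ^ (n + r - 2) ∨
      (∃ i j, k i ≠ k j) ∧ ((n : ℝ) + r) * (((n + r - 1).choose n : ℝ) * bk k (n + r - 1) +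
        2 * ((r.factorial : ℝ) * (Nat.stirlingSecond (n + r) r : ℝ)) * wt k (n + r - 1)) ≤ c ∨
      n + r ≤ c ∧ ∃ t : ℕ, t < n + r ∧
        ((n : ℝ) + r) * ((n : ℝ) + r - 1) * (t : ℝ) ^ 2 * ((n + r - 1).choose n : ℝ) * (ak k (n + r - 2) + bk k (n + r - 2)) <
        4 * (c : ℝ) * (4 * (c : ℝ) * ((r.factorial : ℝ) * (Nat.stirlingSecond (n + r) r : ℝ) * wt k (n + r) -
            ((n + r - 1).choose n : ℝ) * ak k (n + r)) +
          ((n : ℝ) + r) * ((n + r - 1).choose n : ℝ) *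
            (((n : ℝ) + r + 1 + t) * ak k (n + r - 1) - ((n : ℝ) + r + 1 - t) * bk k (n + r - 1)) -
          4 * ((n : ℝ) + r) * ((r.factorial : ℝ) * (Nat.stirlingSecond (n + r) r : ℝ)) * wt k (n + r - 1))) :
    (∀ j : ℕ, 1 ≤ j →
        {p : Fin (n + r) → ℕ | (∀ i, 0 < p i) ∧ (fun i => (p i : ℝ)) ∉ interior (newton (mult j V))}.Finite) ∧
      (∀ I : Finset (Fin (n + r)), volume {y : I → ℝ | extz I y ∈ under V} ≠ ⊤) ∧
      ((n + r - 1).choose n : ℝ) * ((n + r).factorial : ℝ) * genusH k V <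
        (r.factorial : ℝ) * (Nat.stirlingSecond (n + r) r : ℝ) * milnorH k V := by
  refine ⟨fun j hj => Pool.Agent.Helper65.KG.genus_finite _ (qML (n + r) V j hj hV).1,
    Pool.Agent.Helper65.KG.vol_finite V hV, ?_⟩
  have hn' : (3 : ℝ) ≤ n := by exact_mod_cast hn
  have hr' : (1 : ℝ) ≤ r := by exact_mod_cast hr
  -- one or two diagrams
  have small : r ≤ 2 → 2 * (n + r) ≤ c → (r = 2 → n = 3 → 20 ≤ c) → ∃ t, t < n + r ∧ NumT n r t k c := by
    intro h2 h3 h4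
    have h3' : 2 * ((n : ℝ) + r) ≤ c := by exact_mod_cast h3
    rcases (by omega : r = 1 ∨ r = 2) with h5 | h5
    · subst h5
      exact Pool.Agent.Helper70.EH.R1.t n k c hn hk (by exact_mod_cast h3')
    · subst h5
      exact rR3 n k c hn hk (by exact_mod_cast h3') (fun h => by exact_mod_cast h4 rfl h)
  have key : n + r ≤ c ∧ ∃ t, t < n + r ∧ NumT n r t k c := by
    rcases h with ⟨h1, h2 | h2 | ⟨h2, h3⟩⟩ | ⟨h1, h2⟩ | ⟨h1, h2⟩ | ⟨h1, t, h2, h3⟩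
    · exact ⟨by omega, small (by omega) h1 fun h _ => by omega⟩
    · exact ⟨by omega, small (by omega) h1 fun _ => h2.2⟩
    · refine ⟨by omega, ?_⟩
      rcases Nat.lt_or_ge r 3 with h4 | h4
      · exact small (by omega) h1 (fun _ h => by omega)
      · refine ⟨4 * r, by omega, rN5 n r k c h4 h2 hk ?_ (by exact_mod_cast h1)⟩
        have h5 : (((n + r) ^ 2 * ∑ i, (∑ j ∈ Finset.univ.erase i, k j) ^ (n + r - 2) : ℕ) : ℝ) ≤
            ((4 * (∑ j, k j) ^ (n + r - 2) : ℕ) : ℝ) := by exact_mod_cast h3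
        rw [Nat.cast_mul, sum_erase_cast] at h5
        push_cast at h5
        exact h5
    · have h1' : ((n : ℝ) + r) ^ 2 ≤ c := by exact_mod_cast h1
      have hcle : n + r ≤ c := le_trans (by nlinarith) h1
      refine ⟨hcle, ?_⟩
      rcases Nat.lt_or_ge r 3 with h4 | h4
      · refine small (by omega) (le_trans (by nlinarith) h1) (fun h5 h6 => ?_)
        subst h5
        subst h6
        omega
      · refine ⟨n + r - 1, by omega, Pool.Agent.Helper70.EH.FT.numT_of_numH n r k c hn hr (rN4 n r k c hn h4 hk ?_ h1')⟩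
        have h5 : ((4 * ∑ i, (∑ j ∈ Finset.univ.erase i, k j) ^ (n + r - 2) : ℕ) : ℝ) ≤
            (((∑ j, k j) ^ (n + r - 2) : ℕ) : ℝ) := by exact_mod_cast h2
        rw [Nat.cast_mul, sum_erase_cast] at h5
        push_cast at h5
        exact h5
    · obtain ⟨h3, h4⟩ := Pool.Agent.Helper70.EH.EP.large rEP rSE n r k c hn hr hk h1 h2
      exact ⟨by exact_mod_cast h3, n + r - 1, by omega, Pool.Agent.Helper70.EH.FT.numT_of_numH n r k c hn hr h4⟩
    · exact ⟨h1, t, h2, (rEP n r k hn hr hk).1, h3⟩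
  obtain ⟨hcle, t, ht, hnum⟩ := key
  have hcR : (n : ℝ) + r ≤ c := by exact_mod_cast hcle
  have hT : Thick V (c : ℝ) := ⟨hV, by linarith, h0, fun v hv i hi => by exact_mod_cast hc v hv i hi⟩
  exact rFT n r t k V c hn hr ht hk hT hcR hnum

end Pool.Agent.Helper70.EH
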